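import Pool.Agent.P.MP_ed1e41_co.Good

/-! The members with many elements in `range (t + 2 d)` are few. -/

namespace Pool.Agent.P.MP_ed1e41_co

open Finset

/-- central-type binomial coefficient -/
def bb (t c : ℕ) : ℕ := (t + 2 * c).choose (t + c)

lemma bb_succ (t c : ℕ) : t * bb t c ≤ (c + 1) * bb t (c + 1) := by
  unfold bb
  have h1 := Nat.choose_mul_succ_eq (t + 2 * c) (t + c)
  have h2 : (t + 2 * (c + 1)).choose (t + (c + 1)) =
      (t + 2 * c + 1).choose (t + c) + (t + 2 * c + 1).choose (t + c + 1) :=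
    Nat.choose_succ_succ' (t + 2 * c + 1) (t + c)
  rw [show t + 2 * c + 1 - (t + c) = c + 1 by omega] at h1
  rw [h2]
  nlinarith [Nat.zero_le ((t + 2 * c).choose (t + c) * (2 * c + 1)),
    Nat.zero_le ((c + 1) * (t + 2 * c + 1).choose (t + c + 1))]

lemma bb_pos (t c : ℕ) : 0 < bb t c := Nat.choose_pos (by omega)

lemma bb_top {t : ℕ} (ht : 1 ≤ t) (c : ℕ) : t * (t + 2 * c - 1).choose (t + c) ≤ c * bb t c := by
  unfold bb
  have h1 := Nat.choose_mul_succ_eq (t + 2 * c - 1) (t + c)
  rw [show t + 2 * c - 1 + 1 = t + 2 * c by omega, show t + 2 * c - (t + c) = c by omega] at h1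
  nlinarith [Nat.zero_le ((t + 2 * c - 1).choose (t + c) * (2 * c))]

lemma bb_sum {t d : ℕ} (ht : 4 * d ^ 2 ≤ t) (l : ℕ) (hl : l ≤ d) :
    t * ∑ c ∈ range l, bb t c * (2 * d) ^ (l - c) ≤ 4 * d ^ 2 * bb t l := by
  induction l with
  | zero => simp
  | succ l ih =>
    have h1 := ih (by omega)
    have h2 : ∑ c ∈ range (l + 1), bb t c * (2 * d) ^ (l + 1 - c) =
        2 * d * (∑ c ∈ range l, bb t c * (2 * d) ^ (l - c) + bb t l) := by
      rw [sum_range_succ, mul_add, mul_sum]
      congr 1
      · apply sum_congr rfl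
        intro c hc
        rw [mem_range] at hc
        rw [show l + 1 - c = (l - c) + 1 by omega, pow_succ]
        ring
      · rw [show l + 1 - l = 1 by omega]
        ring
    rw [h2]
    have h3 := bb_succ t l
    have h4 : (l + 1) * bb t (l + 1) ≤ d * bb t (l + 1) := Nat.mul_le_mul_right _ hl
    have h5 : 4 * d ^ 2 * bb t l ≤ t * bb t l := Nat.mul_le_mul_right _ ht
    set S := ∑ c ∈ range l, bb t c * (2 * d) ^ (l - c)
    calc t * (2 * d * (S + bb t l)) = 2 * d * (t * S + t * bb t l) := by ring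
      _ ≤ 2 * d * (d * bb t (l + 1) + d * bb t (l + 1)) := by
        apply Nat.mul_le_mul_left
        omega
      _ = 4 * d ^ 2 * bb t (l + 1) := by ring

lemma traces_bound {t d l : ℕ} (ht : 1 ≤ t) (htd : 4 * d ^ 2 ≤ t) (hl : l ≤ d)
    {𝓕 : Finset (Finset ℕ)} (hs : Shifted 𝓕)
    (h : ∀ F ∈ 𝓕, ∀ G ∈ 𝓕, t ≤ (F ∩ G).card) (hk : ∀ F ∈ 𝓕, F.card = t + d)
    {G₀ : Finset ℕ} (hG₀ : G₀ ∈ 𝓕) (hG₀' : (G₀ ∩ range (t + 2 * l)).card < t + l) :
    t * ((𝓕.filter (fun F => (F ∩ range (t + 2 * d)).card = t + l)).image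
      (fun F => F ∩ range (t + 2 * d))).card ≤ 6 * d ^ 2 * bb t l := by
  classical
  obtain ⟨M, hM, hMc⟩ := exists_subset_card_eq (s := range (t + 2 * l) \ G₀) (n := l + 1) (by
    have := card_range_sdiff G₀ (t + 2 * l)
    omega)
  have hsub : (𝓕.filter (fun F => (F ∩ range (t + 2 * d)).card = t + l)).image
      (fun F => F ∩ range (t + 2 * d)) ⊆
      M.biUnion (fun y => ((range (t + 2 * l)).erase y).powersetCard (t + l)) ∪
      (range l).biUnion (fun c => ((range (t + 2 * c)).powersetCard (t + c) ×ˢ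
        (Ico t (t + 2 * d)).powersetCard (l - c)).image (fun p => p.1 ∪ p.2)) := by
    intro T hT
    rw [mem_image] at hT
    obtain ⟨F, hF, rfl⟩ := hT
    rw [mem_filter] at hF
    obtain ⟨c, hc⟩ := exists_class hs h hk hF.1
    have hcd := hc.1
    have hcl : c ≤ l := by
      have := card_tr_mono F (show t + 2 * c ≤ t + 2 * d by omega)
      rw [hc.2.1] at this
      omega
    rw [mem_union]
    rcases hcl.lt_or_eq with hlt | heq
    · right
      rw [mem_biUnion]
      refine ⟨c, mem_range.2 hlt, mem_image.2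
        ⟨(F ∩ range (t + 2 * c), (F ∩ range (t + 2 * d)) \ range (t + 2 * c)), ?_, ?_⟩⟩
      · rw [mem_product, mem_powersetCard, mem_powersetCard]
        refine ⟨⟨inter_subset_right, hc.2.1⟩, ?_, ?_⟩
        · intro x hx
          simp only [mem_sdiff, mem_inter, mem_range] at hx
          exact mem_Ico.2 ⟨by omega, hx.1.2⟩
        · have h1 := card_sdiff_add_card_inter (F ∩ range (t + 2 * d)) (range (t + 2 * c))
          rw [inter_assoc, inter_eq_right.2 (range_subset_range.2 (by omega)), hc.2.1, hF.2] at h1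
          simp only
          omega
      · ext x
        simp only [mem_union, mem_sdiff, mem_inter, mem_range]
        constructor
        · rintro (h1 | h1)
          · exact ⟨h1.1, by omega⟩
          · exact h1.1
        · intro h1
          by_cases h2 : x < t + 2 * c
          · exact Or.inl ⟨h1.1, h2⟩
          · exact Or.inr ⟨h1, h2⟩
    · left
      subst heq
      have h1 : F ∩ range (t + 2 * c) = F ∩ range (t + 2 * d) := by
        apply eq_of_subset_of_card_le
        · exact inter_subset_inter_left (range_subset_range.2 (by omega))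
        · rw [hc.2.1, hF.2]
      have h2 := top_class_inter hs h hk hF.1 hG₀ hc hF.2.le
      have h3 : ¬ M ⊆ F := by
        intro hMF
        have h4 : Disjoint (F ∩ G₀ ∩ range (t + 2 * c)) M := by
          rw [disjoint_left]
          intro y hy hy'
          simp only [mem_inter] at hy
          exact (mem_sdiff.1 (hM hy')).2 hy.1.2
        have h5 : (F ∩ G₀ ∩ range (t + 2 * c)) ∪ M ⊆ F ∩ range (t + 2 * c) := by
          intro y hy
          rw [mem_union] at hy
          rcases hy with hy | hy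
          · simp only [mem_inter] at hy ⊢
            exact ⟨hy.1.1, hy.2⟩
          · exact mem_inter.2 ⟨hMF hy, (mem_sdiff.1 (hM hy)).1⟩
        have h6 := card_le_card h5
        rw [card_union_of_disjoint h4, hc.2.1] at h6
        omega
      obtain ⟨y, hyM, hyF⟩ := not_subset.1 h3
      rw [mem_biUnion]
      refine ⟨y, hyM, ?_⟩
      rw [mem_powersetCard, ← h1]
      refine ⟨?_, hc.2.1⟩
      intro x hx
      rw [mem_inter] at hx
      exact mem_erase.2 ⟨fun e => hyF (e ▸ hx.1), hx.2⟩
  have h1 := (card_le_card hsub).trans (card_union_le _ _)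
  have h2 : (M.biUnion (fun y => ((range (t + 2 * l)).erase y).powersetCard (t + l))).card ≤
      (l + 1) * (t + 2 * l - 1).choose (t + l) := by
    rw [← hMc]
    apply card_biUnion_le_card_mul
    intro y hy
    rw [card_powersetCard, card_erase_of_mem (mem_sdiff.1 (hM hy)).1, card_range]
  have h3 : ((range l).biUnion (fun c => ((range (t + 2 * c)).powersetCard (t + c) ×ˢ
        (Ico t (t + 2 * d)).powersetCard (l - c)).image (fun p => p.1 ∪ p.2))).card ≤
      ∑ c ∈ range l, bb t c * (2 * d) ^ (l - c) := by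
    refine card_biUnion_le.trans (sum_le_sum fun c _ => card_image_le.trans ?_)
    rw [card_product, card_powersetCard, card_powersetCard, card_range, Nat.card_Ico,
      show t + 2 * d - t = 2 * d by omega]
    exact Nat.mul_le_mul_left _ (Nat.choose_le_pow _ _)
  have h4 := bb_sum htd l hl
  have h5 := bb_top ht l
  have h6 : (l + 1) * l ≤ 2 * d ^ 2 := by
    have a1 : l * l ≤ d * d := Nat.mul_le_mul hl hl
    have a2 : d ≤ d * d := Nat.le_mul_self d
    nlinarith
  calc _ ≤ t * ((l + 1) * (t + 2 * l - 1).choose (t + l) +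
        ∑ c ∈ range l, bb t c * (2 * d) ^ (l - c)) := Nat.mul_le_mul_left _ (by omega)
    _ = (l + 1) * (t * (t + 2 * l - 1).choose (t + l)) +
        t * ∑ c ∈ range l, bb t c * (2 * d) ^ (l - c) := by ring
    _ ≤ (l + 1) * (l * bb t l) + 4 * d ^ 2 * bb t l := by
        have := Nat.mul_le_mul_left (l + 1) h5
        omega
    _ = ((l + 1) * l) * bb t l + 4 * d ^ 2 * bb t l := by ring
    _ ≤ 2 * d ^ 2 * bb t l + 4 * d ^ 2 * bb t l := by
        have := Nat.mul_le_mul_right (bb t l) h6
        omega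
    _ = _ := by ring

lemma mem_frankl {n k t j : ℕ} {F : Finset ℕ} :
    F ∈ frankl n k t j ↔ F ⊆ range n ∧ F.card = k ∧ t + j ≤ (F ∩ range (t + 2 * j)).card := by
  unfold frankl
  rw [mem_filter, mem_powersetCard, and_assoc]

lemma frankl_lower {n t d l : ℕ} (hl : l ≤ d) (hn : t + 2 * d ≤ n) :
    bb t l * (n - (t + 2 * d)).choose (d - l) ≤ (frankl n (t + d) t l).card := by
  have h1 : bb t l * (n - (t + 2 * d)).choose (d - l) =
      ((range (t + 2 * l)).powersetCard (t + l) ×ˢ
        (Ico (t + 2 * d) n).powersetCard (d - l)).card := by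
    rw [card_product, card_powersetCard, card_powersetCard, card_range, Nat.card_Ico]
    rfl
  rw [h1]
  have key : ∀ p ∈ (range (t + 2 * l)).powersetCard (t + l) ×ˢ
      (Ico (t + 2 * d) n).powersetCard (d - l),
      (p.1 ∪ p.2) ∩ range (t + 2 * l) = p.1 ∧ (p.1 ∪ p.2) \ range (t + 2 * l) = p.2 := by
    intro p hp
    rw [mem_product, mem_powersetCard, mem_powersetCard] at hp
    constructor
    · ext x
      simp only [mem_inter, mem_union, mem_range]
      constructor
      · rintro ⟨h1 | h1, h2⟩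
        · exact h1
        · have := mem_Ico.1 (hp.2.1 h1)
          omega
      · intro h1
        exact ⟨Or.inl h1, mem_range.1 (hp.1.1 h1)⟩
    · ext x
      simp only [mem_sdiff, mem_union, mem_range]
      constructor
      · rintro ⟨h1 | h1, h2⟩
        · exact absurd (mem_range.1 (hp.1.1 h1)) h2
        · exact h1
      · intro h1
        have := mem_Ico.1 (hp.2.1 h1)
        exact ⟨Or.inr h1, by omega⟩
  apply card_le_card_of_injOn (fun p => p.1 ∪ p.2)
  · intro p hp
    have h2 := key p hp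
    rw [mem_coe, mem_product, mem_powersetCard, mem_powersetCard] at hp
    rw [mem_coe, mem_frankl]
    refine ⟨?_, ?_, by simp only; rw [h2.1, hp.1.2]⟩
    · intro x hx
      rw [mem_union] at hx
      rcases hx with hx | hx
      · have := mem_range.1 (hp.1.1 hx)
        exact mem_range.2 (by omega)
      · exact mem_range.2 (mem_Ico.1 (hp.2.1 hx)).2
    · have := card_sdiff_add_card_inter (p.1 ∪ p.2) (range (t + 2 * l))
      rw [h2.1, h2.2, hp.1.2, hp.2.2] at this
      simp only
      omega
  · intro p hp q hq hpq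
    have h2 := key p hp
    have h3 := key q hq
    simp only at hpq
    rw [hpq] at h2
    exact Prod.ext (h2.1.symm.trans h3.1) (h2.2.symm.trans h3.2)

theorem cheap_bound {n t d l : ℕ} (ht : 1 ≤ t) (htd : 4 * d ^ 2 ≤ t) (hl : l ≤ d)
    (hn : t + 2 * d ≤ n) {𝓕 : Finset (Finset ℕ)} (hs : Shifted 𝓕)
    (h : ∀ F ∈ 𝓕, ∀ G ∈ 𝓕, t ≤ (F ∩ G).card) (hk : ∀ F ∈ 𝓕, F.card = t + d)
    (hr : ∀ F ∈ 𝓕, F ⊆ range n)
    {G₀ : Finset ℕ} (hG₀ : G₀ ∈ 𝓕) (hG₀' : (G₀ ∩ range (t + 2 * l)).card < t + l) :
    t * (𝓕.filter (fun F => (F ∩ range (t + 2 * d)).card = t + l)).card ≤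
      6 * d ^ 2 * (frankl n (t + d) t l).card := by
  have h1 := traces_bound ht htd hl hs h hk hG₀ hG₀'
  have h2 := frankl_lower hl hn
  set 𝓣 := (𝓕.filter (fun F => (F ∩ range (t + 2 * d)).card = t + l)).image
      (fun F => F ∩ range (t + 2 * d)) with h𝓣
  have h3 : (𝓕.filter (fun F => (F ∩ range (t + 2 * d)).card = t + l)).card ≤
      𝓣.card * (n - (t + 2 * d)).choose (d - l) := by
    have e : 𝓣.card * (n - (t + 2 * d)).choose (d - l) =
        (𝓣 ×ˢ (Ico (t + 2 * d) n).powersetCard (d - l)).card := by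
      rw [card_product, card_powersetCard, Nat.card_Ico]
    rw [e]
    apply card_le_card_of_injOn (fun F => (F ∩ range (t + 2 * d), F \ range (t + 2 * d)))
    · intro F hF
      rw [mem_coe, mem_product, mem_powersetCard]
      refine ⟨mem_image_of_mem _ hF, ?_, ?_⟩
      · intro x hx
        rw [mem_coe, mem_filter] at hF
        simp only [mem_sdiff, mem_range] at hx
        exact mem_Ico.2 ⟨by omega, mem_range.1 (hr F hF.1 hx.1)⟩
      · rw [mem_coe, mem_filter] at hF
        have := card_sdiff_add_card_inter F (range (t + 2 * d))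
        rw [hF.2, hk F hF.1] at this
        simp only
        omega
    · intro F _ G _ hFG
      simp only [Prod.mk.injEq] at hFG
      rw [← sdiff_union_inter F (range (t + 2 * d)), hFG.1, hFG.2, sdiff_union_inter]
  calc _ ≤ t * (𝓣.card * (n - (t + 2 * d)).choose (d - l)) := Nat.mul_le_mul_left _ h3
    _ = (t * 𝓣.card) * (n - (t + 2 * d)).choose (d - l) := by ring
    _ ≤ (6 * d ^ 2 * bb t l) * (n - (t + 2 * d)).choose (d - l) := Nat.mul_le_mul_right _ h1
    _ = 6 * d ^ 2 * (bb t l * (n - (t + 2 * d)).choose (d - l)) := by ring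
    _ ≤ _ := Nat.mul_le_mul_left _ h2

end Pool.Agent.P.MP_ed1e41_co
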