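import Mathlib

/-! Definitions for the minimum shadow of `t`-intersecting uniform families. -/

namespace Pool.Agent.P.MP_ed1e41_co

open Finset

/-- `𝓕` is a `t`-intersecting family of `m` subsets of size `k` of `{0, …, n-1}`. -/
def Adm (n k t m : ℕ) (𝓕 : Finset (Finset ℕ)) : Prop :=
  𝓕 ⊆ (range n).powersetCard k ∧ (∀ F ∈ 𝓕, ∀ G ∈ 𝓕, t ≤ (F ∩ G).card) ∧ 𝓕.card = m

/-- The minimum size of the shadow of a `t`-intersecting family of `m` subsets of size `k`
of `{0, …, n-1}`. -/
noncomputable def minShadow (n k t m : ℕ) : ℕ :=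
  sInf {s | ∃ 𝓕, Adm n k t m 𝓕 ∧ (Finset.shadow 𝓕).card = s}

/-- The Frankl family: `k`-subsets of `{0, …, n-1}` with at least `t + j` elements among
`{0, …, t + 2 j - 1}`. -/
def frankl (n k t j : ℕ) : Finset (Finset ℕ) :=
  ((range n).powersetCard k).filter (fun F => t + j ≤ (F ∩ range (t + 2 * j)).card)

/-- The first `m` members of `𝒜` in the colexicographic order. -/
def colexInit (𝒜 : Finset (Finset ℕ)) (m : ℕ) : Finset (Finset ℕ) :=
  𝒜.filter (fun F => (𝒜.filter (fun G => toColex G < toColex F)).card < m)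

end Pool.Agent.P.MP_ed1e41_co
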