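import Pool.Agent.P.MP_ed1e41_co.Shift

/-! A Kruskal-Katona theorem for shifted families inside a Frankl-type family. -/

namespace Pool.Agent.P.MP_ed1e41_co

open Finset

/-- the universe -/
def InU (b n w u k : ℕ) (F : Finset ℕ) : Prop :=
  F ⊆ Ico b n ∧ F.card = k ∧ u ≤ (F ∩ range w).card

/-- shifted above `b` -/
def ShiftedFrom (b : ℕ) (𝓕 : Finset (Finset ℕ)) : Prop :=
  ∀ F ∈ 𝓕, ∀ i j, b ≤ i → i < j → j ∈ F → i ∉ F → insert i (F.erase j) ∈ 𝓕

/-- down-closed in the colex order inside the universe -/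
def DownClosed (b n w u k : ℕ) (𝓘 : Finset (Finset ℕ)) : Prop :=
  ∀ F ∈ 𝓘, ∀ G, InU b n w u k G → toColex G < toColex F → G ∈ 𝓘

lemma shift_lt {i j : ℕ} (hij : i < j) {F : Finset ℕ} (hj : j ∈ F) :
    toColex (insert i (F.erase j)) < toColex F := by
  rw [Colex.toColex_lt_toColex_iff_exists_forall_lt]
  refine ⟨j, hj, ?_, ?_⟩
  · simp only [mem_insert, mem_erase]
    rintro (h | h)
    · omega
    · exact h.1 rfl
  · intro c hc hcF
    rw [mem_insert, mem_erase] at hc
    rcases hc with rfl | hc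
    · exact hij
    · exact absurd hc.2 hcF

lemma card_shift_inter {i j w : ℕ} (hij : i < j) {F : Finset ℕ} (hi : i ∉ F) (hj : j ∈ F) :
    (F ∩ range w).card ≤ (insert i (F.erase j) ∩ range w).card := by
  by_cases hjw : j < w
  · have h2 : insert i (F.erase j) ∩ range w = insert i ((F ∩ range w).erase j) := by
      ext x
      simp only [mem_inter, mem_insert, mem_erase, mem_range]
      constructor
      · rintro ⟨h1 | h1, h2⟩
        · exact Or.inl h1
        · exact Or.inr ⟨h1.1, h1.2, h2⟩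
      · rintro (h1 | h1)
        · exact ⟨Or.inl h1, by omega⟩
        · exact ⟨Or.inr ⟨h1.1, h1.2.1⟩, h1.2.2⟩
    rw [h2, card_shift (by simp [hi]) (by simp [hj, hjw])]
  · apply card_le_card
    intro x
    simp only [mem_inter, mem_insert, mem_erase, mem_range]
    rintro ⟨h1, h2⟩
    exact ⟨Or.inr ⟨by omega, h1⟩, h2⟩

lemma InU.shift {b n w u k i j : ℕ} {F : Finset ℕ} (h : InU b n w u k F) (hb : b ≤ i)
    (hij : i < j) (hj : j ∈ F) (hi : i ∉ F) : InU b n w u k (insert i (F.erase j)) := by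
  refine ⟨?_, by rw [card_shift hi hj]; exact h.2.1, h.2.2.trans (card_shift_inter hij hi hj)⟩
  intro x hx
  rw [mem_insert, mem_erase] at hx
  rcases hx with rfl | hx
  · have := mem_Ico.1 (h.1 hj)
    exact mem_Ico.2 ⟨hb, by omega⟩
  · exact h.1 hx.2

lemma DownClosed.shiftedFrom {b n w u k : ℕ} {𝓘 : Finset (Finset ℕ)}
    (h : DownClosed b n w u k 𝓘) (hU : ∀ F ∈ 𝓘, InU b n w u k F) : ShiftedFrom b 𝓘 :=
  fun F hF _ _ hb hij hj hi => h F hF _ ((hU F hF).shift hb hij hj hi) (shift_lt hij hj)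

lemma shadow_non_subset {b : ℕ} {𝓕 : Finset (Finset ℕ)} (hs : ShiftedFrom b 𝓕)
    (hb : ∀ F ∈ 𝓕, ∀ x ∈ F, b ≤ x) :
    shadow (𝓕.nonMemberSubfamily b) ⊆ 𝓕.memberSubfamily b := by
  intro G hG
  obtain ⟨F, hF, x, hx, rfl⟩ := mem_shadow_iff.1 hG
  rw [mem_nonMemberSubfamily] at hF
  rw [mem_memberSubfamily]
  have h1 : b ≤ x := hb F hF.1 x hx
  have h2 : b ≠ x := fun e => hF.2 (e ▸ hx)
  exact ⟨hs F hF.1 b x le_rfl (by omega) hx hF.2, by simp [hF.2]⟩

lemma card_shadow_split {b : ℕ} {𝓕 : Finset (Finset ℕ)} (hs : ShiftedFrom b 𝓕)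
    (hb : ∀ F ∈ 𝓕, ∀ x ∈ F, b ≤ x) :
    (shadow 𝓕).card = (𝓕.memberSubfamily b).card + (shadow (𝓕.memberSubfamily b)).card := by
  rw [← card_memberSubfamily_add_card_nonMemberSubfamily b (shadow 𝓕), add_comm]
  congr 2
  · ext G
    rw [mem_nonMemberSubfamily]
    constructor
    · rintro ⟨h1, h2⟩
      obtain ⟨F, hF, x, hx, rfl⟩ := mem_shadow_iff.1 h1
      by_cases hxb : x = b
      · subst hxb
        rw [mem_memberSubfamily, insert_erase hx]
        exact ⟨hF, h2⟩
      · have h3 : b ∉ F := fun h => h2 (mem_erase.2 ⟨fun e => hxb e.symm, h⟩)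
        exact shadow_non_subset hs hb (erase_mem_shadow (mem_nonMemberSubfamily.2 ⟨hF, h3⟩) hx)
    · intro h
      rw [mem_memberSubfamily] at h
      exact ⟨mem_shadow_iff_insert_mem.2 ⟨b, h.2, h.1⟩, h.2⟩
  · ext G
    rw [mem_memberSubfamily, mem_shadow_iff_insert_mem, mem_shadow_iff_insert_mem]
    constructor
    · rintro ⟨⟨a, ha, h1⟩, h2⟩
      rw [mem_insert, not_or] at ha
      refine ⟨a, ha.2, ?_⟩
      rw [mem_memberSubfamily, insert_comm]
      refine ⟨h1, ?_⟩
      rw [mem_insert, not_or]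
      exact ⟨fun e => ha.1 e.symm, h2⟩
    · rintro ⟨a, ha, h1⟩
      rw [mem_memberSubfamily, mem_insert, not_or] at h1
      refine ⟨⟨a, ?_, ?_⟩, h1.2.2⟩
      · rw [mem_insert, not_or]
        exact ⟨fun e => h1.2.1 e.symm, ha⟩
      · rw [insert_comm]
        exact h1.1

lemma InU.non {b n w u k : ℕ} {F : Finset ℕ} (h : InU b n w u k F) (hb : b ∉ F) :
    InU (b + 1) n w u k F := by
  refine ⟨?_, h.2⟩
  intro x hx
  have h1 := mem_Ico.1 (h.1 hx)
  have h2 : x ≠ b := fun e => hb (e ▸ hx)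
  exact mem_Ico.2 ⟨by omega, h1.2⟩

lemma InU.up {b n w u k : ℕ} {F : Finset ℕ} (h : InU (b + 1) n w u k F) :
    InU b n w u k F ∧ b ∉ F := by
  refine ⟨⟨?_, h.2⟩, fun hb => ?_⟩
  · intro x hx
    have h1 := mem_Ico.1 (h.1 hx)
    exact mem_Ico.2 ⟨by omega, h1.2⟩
  · have h1 := mem_Ico.1 (h.1 hb)
    omega

lemma card_insert_inter {b w : ℕ} {F : Finset ℕ} (hb : b ∉ F) :
    (insert b F ∩ range w).card = (F ∩ range w).card + if b < w then 1 else 0 := by
  split_ifs with h
  · rw [insert_inter_of_mem (mem_range.2 h), card_insert_of_notMem (by simp [hb])]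
  · rw [insert_inter_of_notMem (by simpa using h), add_zero]

lemma InU.mem {b n w u k : ℕ} {F : Finset ℕ} (h : InU b n w u k (insert b F)) (hb : b ∉ F) :
    InU (b + 1) n w (u - if b < w then 1 else 0) (k - 1) F := by
  refine ⟨?_, ?_, ?_⟩
  · intro x hx
    have h1 := mem_Ico.1 (h.1 (mem_insert_of_mem hx))
    have h2 : x ≠ b := fun e => hb (e ▸ hx)
    exact mem_Ico.2 ⟨by omega, h1.2⟩
  · have := h.2.1
    rw [card_insert_of_notMem hb] at this
    omega
  · have := h.2.2
    rw [card_insert_inter hb] at this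
    omega

lemma InU.ins {b n w u k : ℕ} {F : Finset ℕ} (hbn : b < n) (hk : 1 ≤ k)
    (h : InU (b + 1) n w (u - if b < w then 1 else 0) (k - 1) F) :
    InU b n w u k (insert b F) := by
  have hb := h.up.2
  refine ⟨?_, ?_, ?_⟩
  · intro x hx
    rw [mem_insert] at hx
    rcases hx with rfl | hx
    · exact mem_Ico.2 ⟨le_rfl, hbn⟩
    · exact h.up.1.1 hx
  · rw [card_insert_of_notMem hb, h.2.1]
    omega
  · have := h.2.2
    rw [card_insert_inter hb]
    omega

lemma insert_lt_insert' {b : ℕ} {F G : Finset ℕ} (hF : b ∉ F) (_hG : b ∉ G)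
    (h : toColex G < toColex F) : toColex (insert b G) < toColex (insert b F) := by
  rw [Colex.toColex_lt_toColex_iff_exists_forall_lt] at h ⊢
  obtain ⟨a, ha, haG, h⟩ := h
  refine ⟨a, mem_insert_of_mem ha, ?_, ?_⟩
  · rw [mem_insert, not_or]
    exact ⟨fun e => hF (e ▸ ha), haG⟩
  · intro c hc hcF
    rw [mem_insert, not_or] at hcF
    rw [mem_insert] at hc
    rcases hc with hc | hc
    · exact absurd hc hcF.1
    · exact h c hc hcF.2

/-- the key exchange step -/
lemma key_step {b n w u k : ℕ} {G H : Finset ℕ} (hbG : b ∉ G)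
    (hG : InU b n w u k (insert b G)) (hH : InU (b + 1) n w u k H)
    (hlt : toColex (insert b G) < toColex H) :
    ∃ z ∉ G, InU (b + 1) n w u k (insert z G) ∧ toColex (insert z G) ≤ toColex H := by
  classical
  have hG1 := hG.mem hbG
  have hcard : G.card + 1 = k := by
    have := hG.2.1
    rwa [card_insert_of_notMem hbG] at this
  have hne : (Ico (b + 1) n \ G).Nonempty := by
    by_contra hc
    rw [not_nonempty_iff_eq_empty, sdiff_eq_empty_iff_subset] at hc
    have := card_le_card (hH.1.trans hc)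
    rw [hH.2.1] at this
    omega
  set z := (Ico (b + 1) n \ G).min' hne with hz
  have hzm := min'_mem _ hne
  rw [← hz, mem_sdiff] at hzm
  have hzmin : ∀ e, e ∈ Ico (b + 1) n → e ∉ G → z ≤ e := fun e h1 h2 =>
    min'_le _ _ (mem_sdiff.2 ⟨h1, h2⟩)
  refine ⟨z, hzm.2, ⟨?_, ?_, ?_⟩, ?_⟩
  · intro x hx
    rw [mem_insert] at hx
    rcases hx with rfl | hx
    · exact hzm.1
    · exact hG1.1 hx
  · rw [card_insert_of_notMem hzm.2, hcard]
  · rw [card_insert_inter hzm.2]
    split_ifs with hzw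
    · have := hG.2.2
      rw [card_insert_inter hbG] at this
      split_ifs at this <;> omega
    · refine hH.2.2.trans (card_le_card ?_)
      intro x hx
      rw [mem_inter, mem_range] at hx ⊢
      refine ⟨?_, hx.2⟩
      by_contra hxG
      have := hzmin x (hH.1 hx.1) hxG
      omega
  · by_contra hc
    rw [not_le, Colex.toColex_lt_toColex_iff_exists_forall_lt] at hc
    rw [Colex.toColex_lt_toColex_iff_exists_forall_lt] at hlt
    obtain ⟨a, haH, haG, ha⟩ := hlt
    obtain ⟨c, hcG, hcH, hc⟩ := hc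
    rw [mem_insert, not_or] at haG
    by_cases hE : H ⊆ insert z G
    · have h1 : H ⊆ (insert z G).erase c := by
        intro x hx
        exact mem_erase.2 ⟨fun e => hcH (e ▸ hx), hE hx⟩
      have h2 := card_le_card h1
      rw [card_erase_of_mem hcG, card_insert_of_notMem hzm.2, hH.2.1] at h2
      omega
    · obtain ⟨e, heH, heG⟩ := not_subset.1 hE
      have h1 := hc e heH heG
      rw [mem_insert, not_or] at heG
      have h2 := hzmin e (hH.1 heH) heG.2
      have h3 : z < c := by omega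
      have h4 : c ∈ G := by
        rw [mem_insert] at hcG
        rcases hcG with h | h
        · omega
        · exact h
      have h5 := ha c (mem_insert_of_mem h4) hcH
      have h6 := hc a haH (by
        rw [mem_insert, not_or]
        exact ⟨by omega, haG.2⟩)
      omega

theorem genKK_aux (n w : ℕ) (r : ℕ) : ∀ (b u k : ℕ) (𝓕 𝓘 : Finset (Finset ℕ)), b + r = n →
    (∀ F ∈ 𝓕, InU b n w u k F) → ShiftedFrom b 𝓕 → (∀ F ∈ 𝓘, InU b n w u k F) →
    DownClosed b n w u k 𝓘 → 𝓘.card ≤ 𝓕.card → (shadow 𝓘).card ≤ (shadow 𝓕).card := by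
  classical
  induction r with
  | zero =>
    intro b u k 𝓕 𝓘 hb _ _ hI _ _
    have : shadow 𝓘 = ∅ := by
      rw [eq_empty_iff_forall_notMem]
      intro G hG
      obtain ⟨F, hF, x, hx, -⟩ := mem_shadow_iff.1 hG
      have := mem_Ico.1 ((hI F hF).1 hx)
      omega
    rw [this]
    exact Nat.zero_le _
  | succ r ih =>
    intro b u k 𝓕 𝓘 hb hF hFs hI hId hcard
    have hFb : ∀ F ∈ 𝓕, ∀ x ∈ F, b ≤ x := fun F h x hx => (mem_Ico.1 ((hF F h).1 hx)).1
    have hIb : ∀ F ∈ 𝓘, ∀ x ∈ F, b ≤ x := fun F h x hx => (mem_Ico.1 ((hI F h).1 hx)).1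
    have hIs := hId.shiftedFrom hI
    have hF0 : ∀ F ∈ 𝓕.nonMemberSubfamily b, InU (b + 1) n w u k F := fun F h =>
      (hF F (mem_nonMemberSubfamily.1 h).1).non (mem_nonMemberSubfamily.1 h).2
    have hI0 : ∀ F ∈ 𝓘.nonMemberSubfamily b, InU (b + 1) n w u k F := fun F h =>
      (hI F (mem_nonMemberSubfamily.1 h).1).non (mem_nonMemberSubfamily.1 h).2
    have hF0s : ShiftedFrom (b + 1) (𝓕.nonMemberSubfamily b) := by
      intro F h i j hi hij hj hiF
      rw [mem_nonMemberSubfamily] at h ⊢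
      refine ⟨hFs F h.1 i j (by omega) hij hj hiF, ?_⟩
      rw [mem_insert, not_or]
      exact ⟨by omega, by simp [h.2]⟩
    have h1 : (𝓘.memberSubfamily b).card ≤ (𝓕.memberSubfamily b).card := by
      by_contra hc
      have e1 := card_memberSubfamily_add_card_nonMemberSubfamily b 𝓕
      have e2 := card_memberSubfamily_add_card_nonMemberSubfamily b 𝓘
      have hlt : (𝓘.nonMemberSubfamily b).card < (𝓕.nonMemberSubfamily b).card := by omega
      let R := (Ico (b + 1) n).powerset.filter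
        (fun H => InU (b + 1) n w u k H ∧ H ∉ 𝓘.nonMemberSubfamily b)
      have hR : ∀ H, H ∈ R ↔ InU (b + 1) n w u k H ∧ H ∉ 𝓘.nonMemberSubfamily b := by
        intro H
        simp only [R, mem_filter, mem_powerset]
        exact ⟨fun h => h.2, fun h => ⟨h.1.1, h⟩⟩
      have hRne : R.Nonempty := by
        obtain ⟨H, hH1, hH2⟩ := exists_mem_notMem_of_card_lt_card hlt
        exact ⟨H, (hR H).2 ⟨hF0 H hH1, hH2⟩⟩
      obtain ⟨H, hH, hHmin⟩ := exists_min_image R (fun H => toColex H) hRne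
      rw [hR] at hH
      have hbelow : ∀ G, InU (b + 1) n w u k G → toColex G ≤ toColex H →
          G ∈ insert H (𝓘.nonMemberSubfamily b) := by
        intro G hG hle
        rw [mem_insert]
        by_contra hc
        rw [not_or] at hc
        have := hHmin G ((hR G).2 ⟨hG, hc.2⟩)
        exact hc.1 (toColex.injective (le_antisymm hle this))
      have h2 := ih (b + 1) u k (𝓕.nonMemberSubfamily b) (insert H (𝓘.nonMemberSubfamily b))
        (by omega) hF0 hF0s
        (by
          intro F h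
          rw [mem_insert] at h
          rcases h with rfl | h
          · exact hH.1
          · exact hI0 F h)
        (by
          intro F h G hG hlt
          rw [mem_insert] at h
          rcases h with rfl | h
          · exact hbelow G hG hlt.le
          · rw [mem_nonMemberSubfamily] at h
            exact mem_insert_of_mem
              (mem_nonMemberSubfamily.2 ⟨hId F h.1 G hG.up.1 hlt, hG.up.2⟩))
        (by rw [card_insert_of_notMem hH.2]; omega)
      have h3 := card_le_card (shadow_non_subset hFs hFb)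
      have h4 : 𝓘.memberSubfamily b ⊆ shadow (insert H (𝓘.nonMemberSubfamily b)) := by
        intro G hG
        rw [mem_memberSubfamily] at hG
        have hlt : toColex (insert b G) < toColex H := by
          by_contra hc
          rw [not_lt] at hc
          rcases hc.lt_or_eq with hc | hc
          · exact hH.2 (mem_nonMemberSubfamily.2 ⟨hId _ hG.1 H hH.1.up.1 hc, hH.1.up.2⟩)
          · have := toColex.injective hc
            exact hH.1.up.2 (this ▸ mem_insert_self b G)
        obtain ⟨z, hz, hzU, hzle⟩ := key_step hG.2 (hI _ hG.1) hH.1 hlt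
        exact mem_shadow_iff_insert_mem.2 ⟨z, hz, hbelow _ hzU hzle⟩
      have h5 := card_le_card h4
      omega
    have h2 := ih (b + 1) (u - if b < w then 1 else 0) (k - 1) (𝓕.memberSubfamily b)
      (𝓘.memberSubfamily b) (by omega)
      (fun F h => (hF _ (mem_memberSubfamily.1 h).1).mem (mem_memberSubfamily.1 h).2)
      (by
        intro F h i j hi hij hj hiF
        rw [mem_memberSubfamily] at h ⊢
        have h3 := hFs _ h.1 i j (by omega) hij (mem_insert_of_mem hj) (by
          rw [mem_insert, not_or]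
          exact ⟨by omega, hiF⟩)
        rw [erase_insert_of_ne (by omega), insert_comm] at h3
        refine ⟨h3, ?_⟩
        rw [mem_insert, not_or]
        exact ⟨by omega, by simp [h.2]⟩)
      (fun F h => (hI _ (mem_memberSubfamily.1 h).1).mem (mem_memberSubfamily.1 h).2)
      (by
        intro F h G hG hlt
        rw [mem_memberSubfamily] at h ⊢
        have hk : 1 ≤ k := by
          rw [← (hI _ h.1).2.1]
          exact card_pos.2 ⟨b, mem_insert_self b F⟩
        exact ⟨hId _ h.1 _ (hG.ins (by omega) hk) (insert_lt_insert' h.2 hG.up.2 hlt), hG.up.2⟩)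
      h1
    rw [card_shadow_split hFs hFb, card_shadow_split hIs hIb]
    omega

theorem genKK {n w u k : ℕ} {𝓕 𝓘 : Finset (Finset ℕ)}
    (hF : ∀ F ∈ 𝓕, InU 0 n w u k F) (hs : Shifted 𝓕) (hI : ∀ F ∈ 𝓘, InU 0 n w u k F)
    (hd : DownClosed 0 n w u k 𝓘) (hc : 𝓘.card ≤ 𝓕.card) :
    (shadow 𝓘).card ≤ (shadow 𝓕).card :=
  genKK_aux n w n 0 u k 𝓕 𝓘 (by omega) hF (fun F h i j _ hij hj hi => hs F h i j hij hj hi) hI hd hc

end Pool.Agent.P.MP_ed1e41_co
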