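import Pool.Agent.P.MP_ed1e41_co.Walk

/-! The members with few elements in `range (t + 2 d)` have a large shadow. -/

namespace Pool.Agent.P.MP_ed1e41_co

open Finset

lemma card_erase_tr {F : Finset ℕ} {x i : ℕ} (hx : x ∈ F) (hi : x < i) :
    (F.erase x ∩ range i).card + 1 = (F ∩ range i).card := by
  rw [erase_inter, card_erase_add_one (mem_inter.2 ⟨hx, mem_range.2 hi⟩)]

lemma card_range_sdiff (G : Finset ℕ) (i : ℕ) : (range i \ G).card + (G ∩ range i).card = i := by
  rw [inter_comm, card_sdiff_add_card_inter, card_range]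

lemma top_class_inter {t d j : ℕ} {𝓕 : Finset (Finset ℕ)} (hs : Shifted 𝓕)
    (h : ∀ F ∈ 𝓕, ∀ G ∈ 𝓕, t ≤ (F ∩ G).card) (hk : ∀ F ∈ 𝓕, F.card = t + d)
    {F G : Finset ℕ} (hF : F ∈ 𝓕) (hG : G ∈ 𝓕) (hc : IsClass t d j F)
    (hg : (F ∩ range (t + 2 * d)).card ≤ t + j) : t ≤ (F ∩ G ∩ range (t + 2 * j)).card := by
  have h1 : F ∩ range (t + 2 * j) = F ∩ range (t + 2 * d) := by
    apply eq_of_subset_of_card_le
    · exact inter_subset_inter_left (range_subset_range.2 (by have := hc.1; omega))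
    · rw [hc.2.1]; exact hg
  have h2 := trace_inter hs h hk hF hG
  have h3 : F ∩ G ∩ range (t + 2 * j) = F ∩ G ∩ range (t + 2 * d) := by
    rw [inter_right_comm, h1, inter_right_comm]
  rw [h3]
  exact h2

theorem good_bound {t d j : ℕ} {𝓕 : Finset (Finset ℕ)} (hs : Shifted 𝓕)
    (h : ∀ F ∈ 𝓕, ∀ G ∈ 𝓕, t ≤ (F ∩ G).card) (hk : ∀ F ∈ 𝓕, F.card = t + d)
    {G₀ : Finset ℕ} (hG₀ : G₀ ∈ 𝓕) (hG₀' : (G₀ ∩ range (t + 2 * j)).card < t + j) :
    (𝓕.filter (fun F => (F ∩ range (t + 2 * d)).card ≤ t + j)).card * t ≤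
      (shadow 𝓕).card * j := by
  classical
  let r : Finset ℕ → Finset ℕ → Prop := fun F G =>
    ∃ c x, IsClass t d c F ∧ x ∈ F ∧ x < t + 2 * c ∧ (c = j → x ∈ G₀) ∧ G = F.erase x
  apply card_mul_le_card_mul r
  · intro F hF
    rw [mem_filter] at hF
    obtain ⟨c, hc⟩ := exists_class hs h hk hF.1
    have key : ∀ X : Finset ℕ, t ≤ X.card → (∀ x ∈ X, x ∈ F ∧ x < t + 2 * c ∧ (c = j → x ∈ G₀)) →
        t ≤ ((shadow 𝓕).bipartiteAbove r F).card := by
      intro X hX hX'
      refine hX.trans (card_le_card_of_injOn (fun x => F.erase x) ?_ ?_)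
      · intro x hx
        have hx' := hX' x hx
        rw [mem_coe, mem_bipartiteAbove]
        exact ⟨erase_mem_shadow hF.1 hx'.1, c, x, hc, hx'.1, hx'.2.1, hx'.2.2, rfl⟩
      · intro x hx y hy hxy
        exact erase_injOn F (hX' x hx).1 (hX' y hy).1 hxy
    by_cases hcj : c = j
    · subst hcj
      apply key _ (top_class_inter hs h hk hF.1 hG₀ hc hF.2)
      intro x hx
      simp only [mem_inter, mem_range] at hx
      exact ⟨hx.1.1, hx.2, fun _ => hx.1.2⟩
    · apply key (F ∩ range (t + 2 * c)) (by rw [hc.2.1]; omega)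
      intro x hx
      simp only [mem_inter, mem_range] at hx
      exact ⟨hx.1, hx.2, fun e => absurd e hcj⟩
  · intro G _
    rcases (bipartiteBelow r (𝓕.filter (fun F => (F ∩ range (t + 2 * d)).card ≤ t + j))
      G).eq_empty_or_nonempty with he | ⟨F₀, hF₀⟩
    · rw [he]; exact Nat.zero_le _
    rw [mem_bipartiteBelow, mem_filter] at hF₀
    obtain ⟨⟨hF₀, hg₀⟩, c₀, x₀, hc₀, hx₀, hx₀', hx₀'', hG⟩ := hF₀
    have hGc : ∀ (F : Finset ℕ) (c x : ℕ), IsClass t d c F → x ∈ F → x < t + 2 * c → G = F.erase x →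
        (G ∩ range (t + 2 * c)).card + 1 = t + c ∧
        ∀ i, c < i → i ≤ d → (G ∩ range (t + 2 * i)).card + 1 < t + i := by
      intro F c x hc hx hx' hG
      subst hG
      refine ⟨by rw [card_erase_tr hx hx', hc.2.1], fun i h1 h2 => ?_⟩
      rw [card_erase_tr hx (by omega)]
      exact hc.2.2 i h1 h2
    have h0 := hGc F₀ c₀ x₀ hc₀ hx₀ hx₀' hG
    let Y := (range (t + 2 * c₀) \ G).filter (fun x => c₀ = j → x ∈ G₀)
    have hsub : bipartiteBelow r (𝓕.filter (fun F => (F ∩ range (t + 2 * d)).card ≤ t + j)) G ⊆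
        Y.image (fun x => insert x G) := by
      intro F hF
      rw [mem_bipartiteBelow, mem_filter] at hF
      obtain ⟨-, c, x, hc, hx, hx', hx'', hGF⟩ := hF
      have h1 := hGc F c x hc hx hx' hGF
      have hcc : c = c₀ := by
        rcases lt_trichotomy c c₀ with hlt | heq | hlt
        · have := h1.2 c₀ hlt hc₀.1
          omega
        · exact heq
        · have := h0.2 c hlt hc.1
          omega
      subst hcc
      rw [mem_image]
      refine ⟨x, ?_, by rw [hGF, insert_erase hx]⟩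
      simp only [Y, mem_filter, mem_sdiff, mem_range]
      exact ⟨⟨hx', by rw [hGF]; exact notMem_erase x F⟩, hx''⟩
    refine (card_le_card hsub).trans (card_image_le.trans ?_)
    have hW := card_range_sdiff G (t + 2 * c₀)
    have hcj : c₀ ≤ j := by
      have := card_tr_mono F₀ (show t + 2 * c₀ ≤ t + 2 * d by have := hc₀.1; omega)
      rw [hc₀.2.1] at this
      omega
    rcases hcj.lt_or_eq with hlt | heq
    · have := card_le_card (filter_subset (fun x => c₀ = j → x ∈ G₀) (range (t + 2 * c₀) \ G))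
      simp only [Y]
      omega
    · subst heq
      have hss : Y ⊂ range (t + 2 * c₀) \ G := by
        refine ⟨filter_subset _ _, fun hc => ?_⟩
        have h1 := top_class_inter hs h hk hF₀ hG₀ hc₀ hg₀
        have h2 : F₀ ∩ G₀ ∩ range (t + 2 * c₀) ⊆ insert x₀ (G ∩ G₀ ∩ range (t + 2 * c₀)) := by
          intro y hy
          simp only [mem_inter, mem_insert] at hy ⊢
          by_cases hyx : y = x₀
          · exact Or.inl hyx
          · exact Or.inr ⟨⟨by rw [hG]; exact mem_erase.2 ⟨hyx, hy.1.1⟩, hy.1.2⟩, hy.2⟩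
        have h3 := (card_le_card h2).trans (card_insert_le _ _)
        have h4 : Disjoint (G ∩ G₀ ∩ range (t + 2 * c₀)) (range (t + 2 * c₀) \ G) := by
          rw [disjoint_left]
          intro y hy hy'
          simp only [mem_inter, mem_sdiff] at hy hy'
          exact hy'.2 hy.1.1
        have h5 : (G ∩ G₀ ∩ range (t + 2 * c₀)) ∪ (range (t + 2 * c₀) \ G) ⊆
            G₀ ∩ range (t + 2 * c₀) := by
          intro y hy
          rw [mem_union] at hy
          rcases hy with hy | hy
          · simp only [mem_inter] at hy ⊢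
            exact ⟨hy.1.2, hy.2⟩
          · have h6 := hc hy
            simp only [Y, mem_filter] at h6
            exact mem_inter.2 ⟨h6.2 trivial, (mem_sdiff.1 hy).1⟩
        have h6 := card_le_card h5
        rw [card_union_of_disjoint h4] at h6
        omega
      have := card_lt_card hss
      omega

end Pool.Agent.P.MP_ed1e41_co
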