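import Pool.Agent.P.MP_ed1e41_co.Shift

/-! Frankl's lemma on shifted `t`-intersecting families and the class of a member. -/

namespace Pool.Agent.P.MP_ed1e41_co

open Finset

lemma card_tr_add (F G : Finset ℕ) (i : ℕ) :
    (F ∩ range i).card + (G ∩ range i).card =
      (F ∩ G ∩ range i).card + ((F ∪ G) ∩ range i).card := by
  rw [← card_union_add_card_inter, add_comm]
  congr 2
  · ext x
    simp only [mem_inter]
    tauto
  · ext x
    simp only [mem_inter, mem_union]
    tauto

lemma card_tr_le (F : Finset ℕ) (i : ℕ) : (F ∩ range i).card ≤ i := by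
  have := card_le_card (inter_subset_right (s₁ := F) (s₂ := range i))
  rwa [card_range] at this

lemma card_tr_le' (F : Finset ℕ) (i : ℕ) : (F ∩ range i).card ≤ F.card :=
  card_le_card inter_subset_left

lemma card_tr_mono (F : Finset ℕ) {i j : ℕ} (h : i ≤ j) :
    (F ∩ range i).card ≤ (F ∩ range j).card :=
  card_le_card (inter_subset_inter_left (range_subset_range.2 h))

theorem frankl_lemma {t : ℕ} {𝓕 : Finset (Finset ℕ)} (hs : Shifted 𝓕)
    (h : ∀ F ∈ 𝓕, ∀ G ∈ 𝓕, t ≤ (F ∩ G).card) {F : Finset ℕ} (hF : F ∈ 𝓕) :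
    ∀ G ∈ 𝓕, ∃ i, i + t ≤ (F ∩ range i).card + (G ∩ range i).card := by
  classical
  intro G hG
  induction hc : (F ∩ G).card using Nat.strong_induction_on generalizing G with
  | _ c ih =>
    have hex : ∃ i, t ≤ (F ∩ G ∩ range i).card := by
      refine ⟨(F ∩ G).sup id + 1, ?_⟩
      rw [inter_eq_left.2]
      · exact h F hF G hG
      · intro x hx
        have := le_sup (f := id) hx
        exact mem_range.2 (by simp only [id] at this; omega)
    have h0 := Nat.find_spec hex
    set i₀ := Nat.find hex with hi₀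
    by_cases hfull : range i₀ ⊆ F ∪ G
    · refine ⟨i₀, ?_⟩
      rw [card_tr_add, inter_eq_right.2 hfull, card_range]
      omega
    · obtain ⟨x, hx, hxFG⟩ := not_subset.1 hfull
      rw [mem_range] at hx
      rw [mem_union, not_or] at hxFG
      obtain ⟨y, hy⟩ : ∃ y, i₀ = y + 1 := ⟨i₀ - 1, by omega⟩
      have hmin : (F ∩ G ∩ range y).card < t := by
        have := Nat.find_min hex (m := y) (by omega)
        omega
      have hyFG : y ∈ F ∩ G := by
        by_contra hc
        rw [hy, range_add_one, inter_insert_of_notMem hc] at h0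
        omega
      rw [mem_inter] at hyFG
      have hxy : x < y := by
        have : x ≠ y := fun e => hxFG.1 (e ▸ hyFG.1)
        omega
      have hG' := hs G hG x y hxy hyFG.2 hxFG.2
      have hint : F ∩ insert x (G.erase y) = (F ∩ G).erase y := by
        ext z
        simp only [mem_inter, mem_insert, mem_erase]
        constructor
        · rintro ⟨h1, h2 | h2⟩
          · exact absurd (h2 ▸ h1) hxFG.1
          · exact ⟨h2.1, h1, h2.2⟩
        · rintro ⟨h1, h2, h3⟩
          exact ⟨h2, Or.inr ⟨h1, h3⟩⟩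
      have hlt : (F ∩ insert x (G.erase y)).card < c := by
        rw [hint, ← hc]
        exact card_erase_lt_of_mem (mem_inter.2 hyFG)
      obtain ⟨i, hi⟩ := ih _ hlt _ hG' rfl
      by_cases h1 : i ≤ y
      · exfalso
        rw [card_tr_add, hint] at hi
        have h2 := card_tr_le (F ∪ insert x (G.erase y)) i
        have h3 : ((F ∩ G).erase y ∩ range i).card ≤ (F ∩ G ∩ range y).card :=
          card_le_card (inter_subset_inter (erase_subset _ _) (range_subset_range.2 h1))
        omega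
      · refine ⟨i, hi.trans (Nat.add_le_add_left (le_of_eq ?_) _)⟩
        have h2 : insert x (G.erase y) ∩ range i = insert x ((G ∩ range i).erase y) := by
          ext z
          simp only [mem_inter, mem_insert, mem_erase, mem_range]
          constructor
          · rintro ⟨h1 | h1, h2⟩
            · exact Or.inl h1
            · exact Or.inr ⟨h1.1, h1.2, h2⟩
          · rintro (h2 | h2)
            · exact ⟨Or.inl h2, by omega⟩
            · exact ⟨Or.inr ⟨h2.1, h2.2.1⟩, h2.2.2⟩
        rw [h2, card_shift (by simp [hxFG.2]) (by simp [hyFG.2]; omega)]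

/-- traces on `range (t + 2 d)` are `t`-intersecting -/
theorem trace_inter {t d : ℕ} {𝓕 : Finset (Finset ℕ)} (hs : Shifted 𝓕)
    (h : ∀ F ∈ 𝓕, ∀ G ∈ 𝓕, t ≤ (F ∩ G).card) (hk : ∀ F ∈ 𝓕, F.card = t + d)
    {F G : Finset ℕ} (hF : F ∈ 𝓕) (hG : G ∈ 𝓕) : t ≤ (F ∩ G ∩ range (t + 2 * d)).card := by
  obtain ⟨i, hi⟩ := frankl_lemma hs h hF G hG
  have h1 := card_tr_le' F i
  have h2 := card_tr_le' G i
  rw [hk F hF] at h1
  rw [hk G hG] at h2
  rw [card_tr_add] at hi
  have h3 := card_tr_le (F ∪ G) i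
  have h4 := card_tr_mono (F ∩ G) (show i ≤ t + 2 * d by
    rw [← card_tr_add] at hi
    omega)
  omega

/-- `c` is the class of `F` -/
def IsClass (t d c : ℕ) (F : Finset ℕ) : Prop :=
  c ≤ d ∧ (F ∩ range (t + 2 * c)).card = t + c ∧
    ∀ i, c < i → i ≤ d → (F ∩ range (t + 2 * i)).card < t + i

theorem exists_class {t d : ℕ} {𝓕 : Finset (Finset ℕ)} (hs : Shifted 𝓕)
    (h : ∀ F ∈ 𝓕, ∀ G ∈ 𝓕, t ≤ (F ∩ G).card) (hk : ∀ F ∈ 𝓕, F.card = t + d)
    {F : Finset ℕ} (hF : F ∈ 𝓕) : ∃ c, IsClass t d c F := by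
  classical
  obtain ⟨i, hi⟩ := frankl_lemma hs h hF F hF
  have h1 := card_tr_le' F i
  have h2 := card_tr_le F i
  rw [hk F hF] at h1
  have h3 : ∃ c, c ≤ d ∧ t + c ≤ (F ∩ range (t + 2 * c)).card := by
    refine ⟨(i - t + 1) / 2, by omega, ?_⟩
    have := card_tr_mono F (show i ≤ t + 2 * ((i - t + 1) / 2) by omega)
    omega
  obtain ⟨c₀, hc₀, hc₀'⟩ := h3
  let P : ℕ → Prop := fun c => t + c ≤ (F ∩ range (t + 2 * c)).card
  have hP : P (Nat.findGreatest P d) := Nat.findGreatest_spec hc₀ hc₀'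
  have hle : Nat.findGreatest P d ≤ d := Nat.findGreatest_le d
  have hgt : ∀ i, Nat.findGreatest P d < i → i ≤ d → (F ∩ range (t + 2 * i)).card < t + i := by
    intro i h1 h2
    have := Nat.findGreatest_is_greatest h1 h2
    simpa [P] using this
  refine ⟨Nat.findGreatest P d, hle, le_antisymm ?_ hP, hgt⟩
  rcases hle.lt_or_eq with hlt | heq
  · have h4 := hgt (Nat.findGreatest P d + 1) (by omega) hlt
    have h5 := card_tr_mono F
      (show t + 2 * Nat.findGreatest P d ≤ t + 2 * (Nat.findGreatest P d + 1) by omega)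
    omega
  · have := card_tr_le' F (t + 2 * Nat.findGreatest P d)
    rw [hk F hF] at this
    omega

end Pool.Agent.P.MP_ed1e41_co
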