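import Pool.Agent.P.MP_ed1e41_co.Upper
import Pool.Agent.P.MP_ed1e41_co.GenKK

/-! The lower bound for the shadow when `t` is large compared with `k - t`. -/

namespace Pool.Agent.P.MP_ed1e41_co

open Finset

lemma Adm.card_eq {n k t m : ℕ} {𝓕 : Finset (Finset ℕ)} (h : Adm n k t m 𝓕) :
    ∀ F ∈ 𝓕, F.card = k := fun _ hF => (mem_powersetCard.1 (h.1 hF)).2

lemma Adm.sub {n k t m : ℕ} {𝓕 : Finset (Finset ℕ)} (h : Adm n k t m 𝓕) :
    ∀ F ∈ 𝓕, F ⊆ range n := fun _ hF => (mem_powersetCard.1 (h.1 hF)).1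

lemma Adm.exists_not {n k t m l : ℕ} {𝓕 : Finset (Finset ℕ)} (h : Adm n k t m 𝓕)
    (hns : ¬ 𝓕 ⊆ frankl n k t l) : ∃ G ∈ 𝓕, (G ∩ range (t + 2 * l)).card < t + l := by
  obtain ⟨G, hG, hG'⟩ := not_subset.1 hns
  refine ⟨G, hG, ?_⟩
  by_contra hc
  exact hG' (mem_frankl.2 ⟨h.sub G hG, h.card_eq G hG, by omega⟩)

lemma Adm.le_n {n t d m : ℕ} {𝓕 : Finset (Finset ℕ)} (h : Adm n (t + d) t m 𝓕)
    (hd : (frankl n (t + d) t d).card < m) : t + 2 * d ≤ n := by
  by_contra hc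
  have : 𝓕 ⊆ frankl n (t + d) t d := by
    intro F hF
    refine mem_frankl.2 ⟨h.sub F hF, h.card_eq F hF, ?_⟩
    rw [inter_eq_left.2 ((h.sub F hF).trans (range_subset_range.2 (by omega))), h.card_eq F hF]
  have := card_le_card this
  rw [h.2.2] at this
  omega

lemma main_ineq {n t d m j : ℕ} (ht : 1 ≤ t) (htd : 4 * d ^ 2 ≤ t)
    {𝓕 : Finset (Finset ℕ)} (h : Adm n (t + d) t m 𝓕) (hs : Shifted 𝓕)
    (hmax : ∀ l, j < l → l ≤ d → (frankl n (t + d) t l).card < m)
    (hns : ¬ 𝓕 ⊆ frankl n (t + d) t j) :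
    t * m ≤ j * (shadow 𝓕).card + 6 * d ^ 3 * m := by
  classical
  obtain ⟨G₀, hG₀, hG₀'⟩ := h.exists_not hns
  have h1 := good_bound hs h.2.1 h.card_eq hG₀ hG₀'
  have h2 := card_filter_add_card_filter_not (s := 𝓕)
    (fun F => (F ∩ range (t + 2 * d)).card ≤ t + j)
  have h3 : 𝓕.filter (fun F => ¬ (F ∩ range (t + 2 * d)).card ≤ t + j) ⊆
      (Ioc j d).biUnion (fun l => 𝓕.filter (fun F => (F ∩ range (t + 2 * d)).card = t + l)) := by
    intro F hF
    rw [mem_filter] at hF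
    have := card_tr_le' F (t + 2 * d)
    rw [h.card_eq F hF.1] at this
    rw [mem_biUnion]
    exact ⟨(F ∩ range (t + 2 * d)).card - t, mem_Ioc.2 ⟨by omega, by omega⟩,
      mem_filter.2 ⟨hF.1, by omega⟩⟩
  have h4 := (card_le_card h3).trans card_biUnion_le
  have h5 : t * ∑ l ∈ Ioc j d, (𝓕.filter (fun F => (F ∩ range (t + 2 * d)).card = t + l)).card ≤
      (Ioc j d).card * (6 * d ^ 2 * m) := by
    rw [mul_sum, ← smul_eq_mul]
    apply sum_le_card_nsmul
    intro l hl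
    rw [mem_Ioc] at hl
    have hn := h.le_n (hmax d (by omega) le_rfl)
    have hlm := hmax l hl.1 hl.2
    obtain ⟨G, hG, hG'⟩ := h.exists_not (l := l) (fun hc => by
      have := card_le_card hc
      rw [h.2.2] at this
      omega)
    exact (cheap_bound ht htd hl.2 hn hs h.2.1 h.card_eq h.sub hG hG').trans
      (Nat.mul_le_mul_left _ hlm.le)
  rw [Nat.card_Ioc] at h5
  have h6 : (d - j) * (6 * d ^ 2 * m) ≤ d * (6 * d ^ 2 * m) := Nat.mul_le_mul_right _ (by omega)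
  have h7 := Nat.mul_le_mul_left t h4
  rw [h.2.2] at h2
  calc t * m = (𝓕.filter (fun F => (F ∩ range (t + 2 * d)).card ≤ t + j)).card * t +
        t * (𝓕.filter (fun F => ¬ (F ∩ range (t + 2 * d)).card ≤ t + j)).card := by
        rw [← h2]; ring
    _ ≤ (shadow 𝓕).card * j + d * (6 * d ^ 2 * m) := by omega
    _ = _ := by ring

lemma four_le {t d : ℕ} (h : 10 * d ^ 4 ≤ t) : 4 * d ^ 2 ≤ t := by
  have a1 : d ^ 2 ≤ d ^ 2 * d ^ 2 := Nat.le_mul_self _
  nlinarith

theorem exists_index {n t d m : ℕ} (ht : 1 ≤ t) (htd : 10 * d ^ 4 ≤ t) (hm : 1 ≤ m)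
    {𝓕 : Finset (Finset ℕ)} (h : Adm n (t + d) t m 𝓕) :
    ∃ j ≤ d, m ≤ (frankl n (t + d) t j).card := by
  obtain ⟨𝓖, h2, hs, -⟩ := exists_shifted h
  by_contra hc
  push Not at hc
  have h1 := main_ineq (j := 0) ht (four_le htd) h2 hs (fun l _ hl => hc l hl) (fun hsub => by
    have h3 := card_le_card hsub
    have h4 := hc 0 (Nat.zero_le _)
    rw [h2.2.2] at h3
    omega)
  rw [zero_mul, zero_add] at h1
  have h3 := Nat.le_of_mul_le_mul_right h1 hm
  rcases Nat.eq_zero_or_pos d with hd | hd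
  · subst hd
    omega
  · have a1 : d ^ 3 * 1 ≤ d ^ 3 * d := Nat.mul_le_mul_left _ hd
    have a2 : 0 < d ^ 3 := by positivity
    nlinarith

lemma numeric {t j D q : ℕ} (hD : 1 ≤ D) (htd : 10 * (j + D) ^ 4 ≤ t)
    (hq : t < (j + D) * (q + (j + D))) :
    j * ((t + j + (j + 1) * D) * (q + D)) + 6 * (j + D) ^ 3 * (q * (j + 1)) < t * (q * (j + 1)) := by
  set d := j + D with hd
  have hd1 : 1 ≤ d := by omega
  have hjd : j + 1 ≤ d := by omega
  have hDd : D ≤ d := by omega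
  have p1 : d ≤ d ^ 2 := by nlinarith
  have p2 : d ^ 2 ≤ d ^ 3 := Nat.pow_le_pow_right hd1 (by omega)
  have p3 : d ^ 3 ≤ d ^ 4 := Nat.pow_le_pow_right hd1 (by omega)
  have hq1 : 9 * d ^ 3 < q := by
    by_contra hc
    have : d * q ≤ d * (9 * d ^ 3) := Nat.mul_le_mul_left _ (by omega)
    nlinarith
  have a1 : j * D ≤ d ^ 2 := by nlinarith [Nat.mul_le_mul (show j ≤ d by omega) hDd]
  have a2 : j * (j + (j + 1) * D) ≤ 2 * d ^ 3 := by
    have b1 : (j + 1) * D ≤ d * d := Nat.mul_le_mul hjd hDd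
    have b2 : j * (j + (j + 1) * D) ≤ d * (d ^ 2 + d * d) := Nat.mul_le_mul (by omega) (by omega)
    nlinarith
  have a3 : 9 * (q + D) ≤ 10 * q := by omega
  have a4 : 9 * (j * (j + (j + 1) * D) * (q + D)) ≤ 20 * d ^ 4 * q := by
    have b1 : j * (j + (j + 1) * D) * (9 * (q + D)) ≤ (2 * d ^ 4) * (10 * q) :=
      Nat.mul_le_mul (by omega) a3
    nlinarith
  have a5 : 6 * d ^ 3 * (q * (j + 1)) ≤ 6 * d ^ 4 * q := by
    have b1 : 6 * d ^ 3 * (q * (j + 1)) ≤ 6 * d ^ 3 * (q * d) :=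
      Nat.mul_le_mul_left _ (Nat.mul_le_mul_left _ hjd)
    nlinarith
  have a6 : 9 * (j * D) * t ≤ q * t := Nat.mul_le_mul_right _ (by omega)
  have a7 : 10 * d ^ 4 * q ≤ t * q := Nat.mul_le_mul_right _ htd
  have a8 : 0 < t * q := Nat.mul_pos (by nlinarith) (by omega)
  nlinarith

theorem lower_bound {n t d m j : ℕ} (ht : 1 ≤ t) (htd : 10 * d ^ 4 ≤ t) (hj : j ≤ d)
    (hjm : m ≤ (frankl n (t + d) t j).card)
    (hmax : ∀ l, j < l → l ≤ d → (frankl n (t + d) t l).card < m)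
    {𝓕 : Finset (Finset ℕ)} (h : Adm n (t + d) t m 𝓕) (hs : Shifted 𝓕) :
    (shadow (colexInit (frankl n (t + d) t j) m)).card ≤ (shadow 𝓕).card := by
  classical
  have hcard : (colexInit (frankl n (t + d) t j) m).card ≤ 𝓕.card := by
    rw [card_colexInit hjm, h.2.2]
  by_cases hsub : 𝓕 ⊆ frankl n (t + d) t j
  · have hU : ∀ F, F ∈ frankl n (t + d) t j ↔ InU 0 n (t + 2 * j) (t + j) (t + d) F := by
      intro F
      rw [mem_frankl, InU, range_eq_Ico]
    exact genKK (fun F hF => (hU F).1 (hsub hF)) hs (fun F hF => (hU F).1 (mem_colexInit.1 hF).1)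
      (fun F hF G hG hlt => colexInit_down hF ((hU G).2 hG) hlt) hcard
  rcases hj.lt_or_eq with hlt | rfl
  swap
  · have hU : ∀ F, InU 0 n 0 0 (t + j) F ↔ F ⊆ range n ∧ F.card = t + j := by
      intro F
      rw [InU, range_eq_Ico]
      simp
    refine genKK (fun F hF => (hU F).2 ⟨h.sub F hF, h.card_eq F hF⟩) hs
      (fun F hF => (hU F).2 ?_) (fun F hF G hG hlt => colexInit_down hF ?_ hlt) hcard
    · have := mem_frankl.1 (mem_colexInit.1 hF).1
      exact ⟨this.1, this.2.1⟩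
    · have h1 := mem_frankl.1 (mem_colexInit.1 hF).1
      rw [hU] at hG
      refine mem_frankl.2 ⟨hG.1, hG.2, ?_⟩
      have h2 : F ∩ range (t + 2 * j) = F :=
        eq_of_subset_of_card_le inter_subset_left (by omega)
      have h3 := Colex.forall_lt_mono hlt.le (a := t + 2 * j) (fun b hb => by
        rw [← h2] at hb
        exact mem_range.1 (mem_inter.1 hb).2)
      rw [inter_eq_left.2 (fun b hb => mem_range.2 (h3 b hb)), hG.2]
  obtain ⟨D, rfl⟩ : ∃ D, d = j + D := ⟨d - j, by omega⟩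
  have hD : 1 ≤ D := by omega
  have h1 := main_ineq ht (four_le htd) h hs hmax hsub
  have hd := hmax (j + D) hlt le_rfl
  have h2 := frankl_lower (le_refl (j + D)) (h.le_n hd)
  rw [Nat.sub_self, Nat.choose_zero_right, mul_one] at h2
  rw [← add_assoc] at hjm
  have hex : ∃ s, m ≤ (frankl s (t + j + D) t j).card := ⟨n, hjm⟩
  have hs1 := Nat.find_spec hex
  have hs2 : Nat.find hex ≤ n := Nat.find_min' hex hjm
  have hs3 : ∀ s < Nat.find hex, (frankl s (t + j + D) t j).card < m := fun s hs => by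
    have := Nat.find_min hex hs
    omega
  generalize Nat.find hex = s at hs1 hs2 hs3
  have h3 : t < (j + D) * (s - (t + j)) := by
    have a1 := bb_pow t j D
    have a2 := frankl_upper s t j D
    have a3 : (j + D) ^ D * bb t (j + D) < (j + D) ^ D * (bb t j * (s - (t + j)) ^ D) :=
      Nat.mul_lt_mul_of_pos_left (by omega) (by positivity)
    have a4 : t ^ D * bb t j < ((j + D) * (s - (t + j))) ^ D * bb t j := by
      rw [mul_pow]
      nlinarith
    exact lt_of_pow_lt_pow_left₀ D (Nat.zero_le _) (lt_of_mul_lt_mul_right a4 (Nat.zero_le _))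
  have h4 : j + D < s - (t + j) := by
    by_contra hc
    have a1 : (j + D) * (s - (t + j)) ≤ (j + D) * (j + D) := Nat.mul_le_mul_left _ (by omega)
    have a2 := four_le htd
    nlinarith
  obtain ⟨s', rfl⟩ : ∃ s', s = s' + 1 := ⟨s - 1, by omega⟩
  have h5 := frankl_growth (s := s') (t := t) (j := j) (D := D) (by omega) (by omega)
  have h6 := shadow_frankl (s := s' + 1) (t := t) (j := j) (D := D) (by omega)
  have h7 := card_le_card (shadow_mono (colexInit_subset hs2 hs1))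
  have h8 := hs3 s' (by omega)
  set q := s' + 1 - (t + 2 * j + D) with hq
  have h9 := numeric (q := q) hD htd (by
    rwa [show q + (j + D) = s' + 1 - (t + j) by omega])
  rw [← add_assoc]
  by_contra hc
  set U := (shadow (colexInit (frankl n (t + j + D) t j) m)).card
  set V := (shadow (frankl (s' + 1) (t + j + D) t j)).card
  set A := (frankl (s' + 1) (t + j + D) t j).card
  set A' := (frankl s' (t + j + D) t j).card
  set S := (shadow 𝓕).card
  have b1 : q * ((j + 1) * V) ≤ (t + j + (j + 1) * D) * ((q + D) * m) := by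
    calc q * ((j + 1) * V) ≤ q * ((t + j + (j + 1) * D) * A) := Nat.mul_le_mul_left _ h6
      _ = (t + j + (j + 1) * D) * (q * A) := by ring
      _ ≤ (t + j + (j + 1) * D) * ((q + D) * A') := Nat.mul_le_mul_left _ h5
      _ ≤ _ := Nat.mul_le_mul_left _ (Nat.mul_le_mul_left _ h8.le)
  have b2 : j * S ≤ j * V := Nat.mul_le_mul_left _ (by omega)
  have b3 : (t * (q * (j + 1))) * m ≤
      (j * ((t + j + (j + 1) * D) * (q + D)) + 6 * (j + D) ^ 3 * (q * (j + 1))) * m := by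
    calc (t * (q * (j + 1))) * m = (q * (j + 1)) * (t * m) := by ring
      _ ≤ (q * (j + 1)) * (j * V + 6 * (j + D) ^ 3 * m) := Nat.mul_le_mul_left _ (by omega)
      _ = j * (q * ((j + 1) * V)) + 6 * (j + D) ^ 3 * (q * (j + 1)) * m := by ring
      _ ≤ j * ((t + j + (j + 1) * D) * ((q + D) * m)) + 6 * (j + D) ^ 3 * (q * (j + 1)) * m :=
        Nat.add_le_add_right (Nat.mul_le_mul_left _ b1) _
      _ = _ := by ring
  have b4 := Nat.le_of_mul_le_mul_right b3 (by omega)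
  omega

theorem minShadow_eq {n t d m j : ℕ} (ht : 1 ≤ t) (htd : 10 * d ^ 4 ≤ t) (hj : j ≤ d)
    (hjm : m ≤ (frankl n (t + d) t j).card)
    (hmax : ∀ l, j < l → l ≤ d → (frankl n (t + d) t l).card < m) :
    minShadow n (t + d) t m = (shadow (colexInit (frankl n (t + d) t j) m)).card := by
  apply IsLeast.csInf_eq
  constructor
  · refine ⟨_, ⟨fun F hF => ?_, fun F hF G hG => ?_, card_colexInit hjm⟩, rfl⟩
    · exact (mem_filter.1 (mem_colexInit.1 hF).1).1
    · exact frankl_inter (mem_colexInit.1 hF).1 (mem_colexInit.1 hG).1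
  · rintro _ ⟨𝓕, h, rfl⟩
    obtain ⟨𝓖, h2, hs, h3⟩ := exists_shifted h
    exact (lower_bound ht htd hj hjm hmax h2 hs).trans h3

end Pool.Agent.P.MP_ed1e41_co
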