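import Pool.Agent.P.MP_ed1e41_co.Defs

/-! Shifting. -/

namespace Pool.Agent.P.MP_ed1e41_co

open Finset

/-- left-shifted families -/
def Shifted (𝓕 : Finset (Finset ℕ)) : Prop :=
  ∀ F ∈ 𝓕, ∀ i j, i < j → j ∈ F → i ∉ F → insert i (F.erase j) ∈ 𝓕

lemma compress_eq {i j : ℕ} (hij : i ≠ j) (F : Finset ℕ) :
    UV.compress ({i} : Finset ℕ) {j} F = if i ∉ F ∧ j ∈ F then insert i (F.erase j) else F := by
  unfold UV.compress
  have h : (Disjoint ({i} : Finset ℕ) F ∧ ({j} : Finset ℕ) ≤ F) ↔ (i ∉ F ∧ j ∈ F) := by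
    simp
  by_cases hc : i ∉ F ∧ j ∈ F
  · rw [if_pos (h.2 hc), if_pos hc]
    ext x
    simp only [sup_eq_union, mem_sdiff, mem_union, mem_singleton, mem_insert, mem_erase]
    constructor
    · rintro ⟨h1 | h1, h2⟩
      · exact Or.inr ⟨h2, h1⟩
      · exact Or.inl h1
    · rintro (h1 | ⟨h1, h2⟩)
      · exact ⟨Or.inr h1, by rw [h1]; exact hij⟩
      · exact ⟨Or.inl h2, h1⟩
  · rw [if_neg (fun h' => hc (h.1 h')), if_neg hc]

lemma mem_comp {i j : ℕ} (hij : i ≠ j) {𝓕 : Finset (Finset ℕ)} {A : Finset ℕ}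
    (hA : A ∈ UV.compression ({i} : Finset ℕ) {j} 𝓕) :
    (A ∈ 𝓕 ∧ (i ∉ A → j ∈ A → insert i (A.erase j) ∈ 𝓕)) ∨
      ∃ B ∈ 𝓕, i ∉ B ∧ j ∈ B ∧ A = insert i (B.erase j) := by
  rw [UV.mem_compression] at hA
  rcases hA with ⟨h1, h2⟩ | ⟨h1, B, hB, h2⟩
  · left
    refine ⟨h1, fun hi hj => ?_⟩
    rwa [compress_eq hij, if_pos ⟨hi, hj⟩] at h2
  · right
    rw [compress_eq hij] at h2
    split_ifs at h2 with hc
    · exact ⟨B, hB, hc.1, hc.2, h2.symm⟩
    · exact absurd (h2 ▸ hB) h1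

lemma card_shift {i j : ℕ} {B : Finset ℕ} (hi : i ∉ B) (hj : j ∈ B) :
    (insert i (B.erase j)).card = B.card := by
  rw [card_insert_of_notMem (by simp [hi]), card_erase_of_mem hj]
  have := card_pos.2 ⟨j, hj⟩
  omega

lemma comp_inter_aux {i j t : ℕ} {𝓕 : Finset (Finset ℕ)}
    (h : ∀ F ∈ 𝓕, ∀ G ∈ 𝓕, t ≤ (F ∩ G).card) {A B : Finset ℕ} (hA : A ∈ 𝓕)
    (hA' : i ∉ A → j ∈ A → insert i (A.erase j) ∈ 𝓕) (hB : B ∈ 𝓕) (hi : i ∉ B) (hj : j ∈ B) :
    t ≤ (A ∩ insert i (B.erase j)).card := by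
  by_cases hjA : j ∈ A
  · by_cases hiA : i ∈ A
    · have h1 := h A hA B hB
      have h2 : A ∩ insert i (B.erase j) = insert i ((A ∩ B).erase j) := by
        ext x
        simp only [mem_inter, mem_insert, mem_erase]
        constructor
        · rintro ⟨h1, h2 | h2⟩
          · exact Or.inl h2
          · exact Or.inr ⟨h2.1, h1, h2.2⟩
        · rintro (h1 | h1)
          · exact ⟨h1 ▸ hiA, Or.inl h1⟩
          · exact ⟨h1.2.1, Or.inr ⟨h1.1, h1.2.2⟩⟩
      rw [h2, card_shift (by simp [hi]) (by simp [hjA, hj])]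
      exact h1
    · have h1 := h _ (hA' hiA hjA) B hB
      refine h1.trans (card_le_card ?_)
      intro x
      simp only [mem_inter, mem_insert, mem_erase]
      rintro ⟨h2 | h2, h3⟩
      · exact absurd (h2 ▸ h3) hi
      · exact ⟨h2.2, Or.inr ⟨h2.1, h3⟩⟩
  · refine (h A hA B hB).trans (card_le_card ?_)
    intro x
    simp only [mem_inter, mem_insert, mem_erase]
    rintro ⟨h2, h3⟩
    exact ⟨h2, Or.inr ⟨fun e => hjA (e ▸ h2), h3⟩⟩

lemma comp_inter {i j t : ℕ} (hij : i ≠ j) {𝓕 : Finset (Finset ℕ)}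
    (h : ∀ F ∈ 𝓕, ∀ G ∈ 𝓕, t ≤ (F ∩ G).card) :
    ∀ F ∈ UV.compression ({i} : Finset ℕ) {j} 𝓕, ∀ G ∈ UV.compression ({i} : Finset ℕ) {j} 𝓕,
      t ≤ (F ∩ G).card := by
  intro F hF G hG
  rcases mem_comp hij hF with ⟨h1, h2⟩ | ⟨A, hA, hiA, hjA, rfl⟩
  · rcases mem_comp hij hG with ⟨h3, -⟩ | ⟨B, hB, hiB, hjB, rfl⟩
    · exact h F h1 G h3
    · exact comp_inter_aux h h1 h2 hB hiB hjB
  · rcases mem_comp hij hG with ⟨h3, h4⟩ | ⟨B, hB, hiB, hjB, rfl⟩
    · rw [inter_comm]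
      exact comp_inter_aux h h3 h4 hA hiA hjA
    · have h2 : insert i (A.erase j) ∩ insert i (B.erase j) = insert i ((A ∩ B).erase j) := by
        ext x
        simp only [mem_inter, mem_insert, mem_erase]
        tauto
      rw [h2, card_shift (by simp [hiA]) (by simp [hjA, hjB])]
      exact h A hA B hB

lemma comp_subset {i j n k : ℕ} (hij : i < j) {𝓕 : Finset (Finset ℕ)}
    (h : 𝓕 ⊆ (range n).powersetCard k) :
    UV.compression ({i} : Finset ℕ) {j} 𝓕 ⊆ (range n).powersetCard k := by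
  intro F hF
  rcases mem_comp hij.ne hF with ⟨h1, -⟩ | ⟨A, hA, hiA, hjA, rfl⟩
  · exact h h1
  · have h2 := mem_powersetCard.1 (h hA)
    rw [mem_powersetCard, card_shift hiA hjA]
    refine ⟨?_, h2.2⟩
    intro x hx
    rw [mem_insert, mem_erase] at hx
    rcases hx with rfl | hx
    · have := mem_range.1 (h2.1 hjA)
      exact mem_range.2 (by omega)
    · exact h2.1 hx.2

lemma sum_shift {i j : ℕ} {B : Finset ℕ} (hi : i ∉ B) (hj : j ∈ B) :
    ∑ x ∈ insert i (B.erase j), x + j = ∑ x ∈ B, x + i := by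
  rw [sum_insert (by simp [hi]), ← add_sum_erase B (fun x => x) hj]
  ring

lemma comp_measure {i j : ℕ} (hij : i < j) {𝓕 : Finset (Finset ℕ)} {F : Finset ℕ} (hF : F ∈ 𝓕)
    (hi : i ∉ F) (hj : j ∈ F) (hn : insert i (F.erase j) ∉ 𝓕) :
    ∑ A ∈ UV.compression ({i} : Finset ℕ) {j} 𝓕, ∑ x ∈ A, x < ∑ A ∈ 𝓕, ∑ x ∈ A, x := by
  classical
  let φ : Finset ℕ → Finset ℕ := fun A =>
    if UV.compress ({i} : Finset ℕ) {j} A ∈ 𝓕 then A else UV.compress ({i} : Finset ℕ) {j} A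
  have himg : UV.compression ({i} : Finset ℕ) {j} 𝓕 = 𝓕.image φ := by
    ext A
    rw [UV.mem_compression, mem_image]
    constructor
    · rintro (⟨h1, h2⟩ | ⟨h1, B, hB, h2⟩)
      · exact ⟨A, h1, by simp only [φ]; rw [if_pos h2]⟩
      · exact ⟨B, hB, by simp only [φ]; rw [if_neg (h2 ▸ h1), h2]⟩
    · rintro ⟨B, hB, rfl⟩
      simp only [φ]
      split_ifs with hc
      · exact Or.inl ⟨hB, hc⟩
      · exact Or.inr ⟨hc, B, hB, rfl⟩
  have hinj : Set.InjOn φ 𝓕 := by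
    rw [← card_image_iff, ← himg, UV.card_compression]
  rw [himg, sum_image hinj]
  apply sum_lt_sum
  · intro A _
    simp only [φ]
    split_ifs with hc
    · exact le_rfl
    · rw [compress_eq hij.ne]
      split_ifs with hd
      · have := sum_shift hd.1 hd.2
        omega
      · exact le_rfl
  · refine ⟨F, hF, ?_⟩
    have e : UV.compress ({i} : Finset ℕ) {j} F = insert i (F.erase j) := by
      rw [compress_eq hij.ne, if_pos ⟨hi, hj⟩]
    simp only [φ]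
    rw [e, if_neg hn]
    have := sum_shift hi hj
    omega

theorem exists_shifted {n k t m : ℕ} {𝓕 : Finset (Finset ℕ)} (h : Adm n k t m 𝓕) :
    ∃ 𝓖, Adm n k t m 𝓖 ∧ Shifted 𝓖 ∧ (shadow 𝓖).card ≤ (shadow 𝓕).card := by
  classical
  induction hc : ∑ A ∈ 𝓕, ∑ x ∈ A, x using Nat.strong_induction_on generalizing 𝓕 with
  | _ c ih =>
    by_cases hs : Shifted 𝓕
    · exact ⟨𝓕, h, hs, le_rfl⟩
    · unfold Shifted at hs
      push Not at hs
      obtain ⟨F, hF, i, j, hij, hj, hi, hn⟩ := hs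
      have h1 : Adm n k t m (UV.compression ({i} : Finset ℕ) {j} 𝓕) :=
        ⟨comp_subset hij h.1, comp_inter hij.ne h.2.1, by rw [UV.card_compression]; exact h.2.2⟩
      obtain ⟨𝓖, h2, h3, h4⟩ := ih _ (hc ▸ comp_measure hij hF hi hj hn) h1 rfl
      refine ⟨𝓖, h2, h3, h4.trans ?_⟩
      apply UV.card_shadow_compression_le
      intro x hx
      refine ⟨j, mem_singleton_self j, ?_⟩
      rw [mem_singleton] at hx
      subst hx
      rw [erase_singleton, erase_singleton]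
      exact UV.isCompressed_self _ _

end Pool.Agent.P.MP_ed1e41_co
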