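import Pool.Agent.P.MP_ed1e41_co.Cheap

/-! Upper bounds for the shadow of initial segments of Frankl families. -/

namespace Pool.Agent.P.MP_ed1e41_co

open Finset

lemma mem_colexInit {𝒜 : Finset (Finset ℕ)} {m : ℕ} {F : Finset ℕ} :
    F ∈ colexInit 𝒜 m ↔ F ∈ 𝒜 ∧ (𝒜.filter (fun G => toColex G < toColex F)).card < m := by
  unfold colexInit
  rw [mem_filter]

lemma rank_lt {𝒜 : Finset (Finset ℕ)} {F G : Finset ℕ} (hG : G ∈ 𝒜) (h : toColex G < toColex F) :
    (𝒜.filter (fun H => toColex H < toColex G)).card <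
      (𝒜.filter (fun H => toColex H < toColex F)).card := by
  apply card_lt_card
  refine ⟨fun H hH => ?_, fun hc => ?_⟩
  · rw [mem_filter] at hH ⊢
    exact ⟨hH.1, hH.2.trans h⟩
  · have := hc (mem_filter.2 ⟨hG, h⟩)
    rw [mem_filter] at this
    exact lt_irrefl _ this.2

lemma colexInit_down {𝒜 : Finset (Finset ℕ)} {m : ℕ} {F G : Finset ℕ} (hF : F ∈ colexInit 𝒜 m)
    (hG : G ∈ 𝒜) (h : toColex G < toColex F) : G ∈ colexInit 𝒜 m := by
  rw [mem_colexInit] at hF ⊢
  exact ⟨hG, (rank_lt hG h).trans hF.2⟩

lemma card_colexInit {𝒜 : Finset (Finset ℕ)} {m : ℕ} (hm : m ≤ 𝒜.card) :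
    (colexInit 𝒜 m).card = m := by
  let ρ : Finset ℕ → ℕ := fun F => (𝒜.filter (fun G => toColex G < toColex F)).card
  have hinj : Set.InjOn ρ 𝒜 := by
    intro F hF G hG hFG
    rcases lt_trichotomy (toColex F) (toColex G) with h | h | h
    · exact absurd hFG (rank_lt hF h).ne
    · exact toColex.injective h
    · exact absurd hFG (rank_lt hG h).ne'
  have himg : 𝒜.image ρ = range 𝒜.card := by
    apply eq_of_subset_of_card_le
    · intro x hx
      obtain ⟨F, hF, rfl⟩ := mem_image.1 hx
      rw [mem_range]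
      apply card_lt_card
      refine ⟨filter_subset _ _, fun hc => ?_⟩
      have := hc hF
      rw [mem_filter] at this
      exact lt_irrefl _ this.2
    · rw [card_range, card_image_of_injOn hinj]
  have h1 : (colexInit 𝒜 m).image ρ = range m := by
    ext x
    rw [mem_image, mem_range]
    constructor
    · rintro ⟨F, hF, rfl⟩
      exact (mem_colexInit.1 hF).2
    · intro hx
      have : x ∈ 𝒜.image ρ := by rw [himg, mem_range]; omega
      obtain ⟨F, hF, rfl⟩ := mem_image.1 this
      exact ⟨F, mem_colexInit.2 ⟨hF, hx⟩, rfl⟩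
  rw [← card_image_of_injOn (f := ρ) (hinj.mono (fun F hF => (mem_colexInit.1 hF).1)), h1,
    card_range]

lemma frankl_inter {n k t j : ℕ} {F G : Finset ℕ} (hF : F ∈ frankl n k t j)
    (hG : G ∈ frankl n k t j) : t ≤ (F ∩ G).card := by
  rw [mem_frankl] at hF hG
  have h1 := card_tr_add F G (t + 2 * j)
  have h2 := card_tr_le (F ∪ G) (t + 2 * j)
  have h3 := card_tr_le' (F ∩ G) (t + 2 * j)
  omega

lemma colexInit_subset {n s k t j m : ℕ} (hs : s ≤ n) (hm : m ≤ (frankl s k t j).card) :
    colexInit (frankl n k t j) m ⊆ frankl s k t j := by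
  intro F hF
  rw [mem_colexInit, mem_frankl] at hF
  rw [mem_frankl]
  refine ⟨?_, hF.1.2⟩
  by_contra hc
  obtain ⟨x, hxF, hx⟩ := not_subset.1 hc
  have : frankl s k t j ⊆ (frankl n k t j).filter (fun G => toColex G < toColex F) := by
    intro G hG
    rw [mem_frankl] at hG
    rw [mem_filter, mem_frankl]
    refine ⟨⟨hG.1.trans (range_subset_range.2 hs), hG.2⟩, ?_⟩
    rw [Colex.toColex_lt_toColex_iff_exists_forall_lt]
    refine ⟨x, hxF, fun h => hx (hG.1 h), fun b hb _ => ?_⟩
    have := mem_range.1 (hG.1 hb)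
    rw [mem_range] at hx
    omega
  have := card_le_card this
  omega

lemma shadow_frankl {s t j D : ℕ} (hs : t + 2 * j + D ≤ s) :
    (j + 1) * (shadow (frankl s (t + j + D) t j)).card ≤
      (t + j + (j + 1) * D) * (frankl s (t + j + D) t j).card := by
  classical
  set A := frankl s (t + j + D) t j with hA
  have hsh : ∀ G ∈ shadow A, G ⊆ range s ∧ G.card + 1 = t + j + D ∧
      t + j ≤ (G ∩ range (t + 2 * j)).card + 1 := by
    intro G hG
    obtain ⟨F, hF, x, hx, rfl⟩ := mem_shadow_iff.1 hG
    rw [mem_frankl] at hF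
    refine ⟨(erase_subset _ _).trans hF.1, by rw [card_erase_add_one hx, hF.2.1], ?_⟩
    rw [erase_inter]
    have := pred_card_le_card_erase (s := F ∩ range (t + 2 * j)) (a := x)
    omega
  have h1 : ((shadow A).filter (fun G => (G ∩ range (t + 2 * j)).card < t + j)).card * (j + 1) ≤
      A.card * (t + j) := by
    apply card_mul_le_card_mul
      (fun G F => ∃ x, x ∉ G ∧ x < t + 2 * j ∧ F = insert x G)
    · intro G hG
      rw [mem_filter] at hG
      have h2 := hsh G hG.1
      have h3 := card_range_sdiff G (t + 2 * j)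
      refine le_trans (by omega) (card_le_card_of_injOn (s := range (t + 2 * j) \ G)
        (fun x => insert x G) ?_ ?_)
      · intro x hx
        rw [mem_coe, mem_sdiff, mem_range] at hx
        rw [mem_coe, mem_bipartiteAbove, mem_frankl]
        refine ⟨⟨insert_subset (mem_range.2 (by omega)) h2.1, by
          rw [card_insert_of_notMem hx.2]; exact h2.2.1, ?_⟩, x, hx.2, hx.1, rfl⟩
        rw [insert_inter_of_mem (mem_range.2 hx.1), card_insert_of_notMem (by simp [hx.2])]
        exact h2.2.2
      · intro x hx y hy hxy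
        rw [mem_coe, mem_sdiff] at hx hy
        exact (insert_inj hx.2).1 hxy
    · intro F _
      rcases (bipartiteBelow (fun G F => ∃ x, x ∉ G ∧ x < t + 2 * j ∧ F = insert x G)
        ((shadow A).filter (fun G => (G ∩ range (t + 2 * j)).card < t + j))
        F).eq_empty_or_nonempty with he | ⟨G₀, hG₀⟩
      · rw [he]; exact Nat.zero_le _
      rw [mem_bipartiteBelow, mem_filter] at hG₀
      obtain ⟨⟨-, h2⟩, x₀, hx₀, hx₀', hF⟩ := hG₀
      have h3 : (F ∩ range (t + 2 * j)).card ≤ t + j := by
        rw [hF, insert_inter_of_mem (mem_range.2 hx₀'), card_insert_of_notMem (by simp [hx₀])]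
        omega
      refine le_trans (card_le_card (t := (F ∩ range (t + 2 * j)).image (fun x => F.erase x)) ?_)
        (card_image_le.trans h3)
      intro G hG
      rw [mem_bipartiteBelow] at hG
      obtain ⟨-, x, hx, hx', hF'⟩ := hG
      rw [mem_image]
      exact ⟨x, mem_inter.2 ⟨hF' ▸ mem_insert_self x G, mem_range.2 hx'⟩, by
        rw [hF', erase_insert hx]⟩
  have h2 : ((shadow A).filter (fun G => ¬ (G ∩ range (t + 2 * j)).card < t + j)).card * 1 ≤
      A.card * D := by
    apply card_mul_le_card_mul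
      (fun G F => ∃ x, x ∉ G ∧ t + 2 * j ≤ x ∧ F = insert x G)
    · intro G hG
      rw [mem_filter] at hG
      have h2 := hsh G hG.1
      have h3 := card_sdiff_add_card_inter G (range (t + 2 * j))
      have h4 : (G \ range (t + 2 * j)).card < (Ico (t + 2 * j) s).card := by
        rw [Nat.card_Ico]
        omega
      obtain ⟨x, hx, hxG⟩ := exists_mem_notMem_of_card_lt_card h4
      rw [mem_Ico] at hx
      have hxG' : x ∉ G := fun h => hxG (mem_sdiff.2 ⟨h, by rw [mem_range]; omega⟩)
      apply card_pos.2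
      refine ⟨insert x G, ?_⟩
      rw [mem_bipartiteAbove, mem_frankl]
      refine ⟨⟨insert_subset (mem_range.2 hx.2) h2.1, by
        rw [card_insert_of_notMem hxG']; exact h2.2.1, ?_⟩, x, hxG', hx.1, rfl⟩
      rw [insert_inter_of_notMem (by rw [mem_range]; omega)]
      omega
    · intro F hF
      rw [mem_frankl] at hF
      have h3 := card_sdiff_add_card_inter F (range (t + 2 * j))
      refine le_trans (card_le_card (t := (F \ range (t + 2 * j)).image (fun x => F.erase x)) ?_)
        (card_image_le.trans (by omega))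
      intro G hG
      rw [mem_bipartiteBelow] at hG
      obtain ⟨-, x, hx, hx', hF'⟩ := hG
      rw [mem_image]
      exact ⟨x, mem_sdiff.2 ⟨hF' ▸ mem_insert_self x G, by rw [mem_range]; omega⟩, by
        rw [hF', erase_insert hx]⟩
  have h3 := card_filter_add_card_filter_not (s := shadow A)
    (fun G => (G ∩ range (t + 2 * j)).card < t + j)
  rw [← h3]
  have h4 := Nat.mul_le_mul_left (j + 1) h2
  nlinarith

lemma frankl_growth {s t j D : ℕ} (hs : t + 2 * j + D ≤ s + 1) (hs' : t + 2 * j ≤ s) :
    (s + 1 - (t + 2 * j + D)) * (frankl (s + 1) (t + j + D) t j).card ≤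
      (s + 1 - (t + 2 * j + D) + D) * (frankl s (t + j + D) t j).card := by
  classical
  set q := s + 1 - (t + 2 * j + D) with hq
  have h1 : ((frankl (s + 1) (t + j + D) t j).filter (fun F => s ∈ F)).card * q ≤
      (frankl s (t + j + D) t j).card * D := by
    apply card_mul_le_card_mul
      (fun F G => ∃ y, y ∉ F ∧ t + 2 * j ≤ y ∧ s ∈ F ∧ G = insert y (F.erase s))
    · intro F hF
      rw [mem_filter, mem_frankl] at hF
      obtain ⟨⟨hF1, hF2, hF3⟩, hsF⟩ := hF
      have h3 := card_sdiff_add_card_inter F (range (t + 2 * j))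
      have h4 : q ≤ (Ico (t + 2 * j) s \ F).card := by
        have h5 := card_sdiff_add_card_inter (Ico (t + 2 * j) s) F
        have h6 : Ico (t + 2 * j) s ∩ F ⊆ (F \ range (t + 2 * j)).erase s := by
          intro x hx
          simp only [mem_inter, mem_Ico, mem_erase, mem_sdiff, mem_range] at hx ⊢
          exact ⟨by omega, hx.2, by omega⟩
        have h7 := card_le_card h6
        have h8 := card_erase_add_one (s := F \ range (t + 2 * j)) (a := s)
          (mem_sdiff.2 ⟨hsF, by rw [mem_range]; omega⟩)
        rw [Nat.card_Ico] at h5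
        omega
      refine h4.trans (card_le_card_of_injOn (fun y => insert y (F.erase s)) ?_ ?_)
      · intro y hy
        rw [mem_coe, mem_sdiff, mem_Ico] at hy
        rw [mem_coe, mem_bipartiteAbove, mem_frankl]
        refine ⟨⟨?_, by rw [card_shift hy.2 hsF]; exact hF2, ?_⟩, y, hy.2, hy.1.1, hsF, rfl⟩
        · intro x hx
          rw [mem_insert, mem_erase] at hx
          rcases hx with rfl | hx
          · exact mem_range.2 hy.1.2
          · have := mem_range.1 (hF1 hx.2)
            exact mem_range.2 (by omega)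
        · refine hF3.trans (card_le_card ?_)
          intro x hx
          simp only [mem_inter, mem_insert, mem_erase, mem_range] at hx ⊢
          exact ⟨Or.inr ⟨by omega, hx.1⟩, hx.2⟩
      · intro x hx y hy hxy
        rw [mem_coe, mem_sdiff] at hx hy
        exact (insert_inj (by simp [hx.2])).1 hxy
    · intro G hG
      rw [mem_frankl] at hG
      have h3 := card_sdiff_add_card_inter G (range (t + 2 * j))
      refine le_trans (card_le_card
        (t := (G \ range (t + 2 * j)).image (fun y => insert s (G.erase y))) ?_)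
        (card_image_le.trans (by omega))
      intro F hF
      rw [mem_bipartiteBelow] at hF
      obtain ⟨-, y, hy, hy', hsF, hG'⟩ := hF
      rw [mem_image]
      refine ⟨y, mem_sdiff.2 ⟨hG' ▸ mem_insert_self _ _, by rw [mem_range]; omega⟩, ?_⟩
      rw [hG', erase_insert (by simp [hy]), insert_erase hsF]
  have h2 : ((frankl (s + 1) (t + j + D) t j).filter (fun F => ¬ s ∈ F)).card ≤
      (frankl s (t + j + D) t j).card := by
    apply card_le_card
    intro F hF
    rw [mem_filter, mem_frankl] at hF
    rw [mem_frankl]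
    refine ⟨fun x hx => ?_, hF.1.2⟩
    have h1 := mem_range.1 (hF.1.1 hx)
    have h2 : x ≠ s := fun e => hF.2 (e ▸ hx)
    exact mem_range.2 (by omega)
  have h3 := card_filter_add_card_filter_not (s := frankl (s + 1) (t + j + D) t j)
    (fun F => s ∈ F)
  rw [← h3]
  have h4 := Nat.mul_le_mul_left q h2
  nlinarith

lemma frankl_upper (s t j D : ℕ) :
    (frankl s (t + j + D) t j).card ≤ bb t j * (s - (t + j)) ^ D := by
  classical
  have hsub : frankl s (t + j + D) t j ⊆
      (((range (t + 2 * j)).powersetCard (t + j)).filter (fun T => T ⊆ range s)).biUnion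
        (fun T => ((range s \ T).powersetCard D).image (fun R => T ∪ R)) := by
    intro F hF
    rw [mem_frankl] at hF
    obtain ⟨T, hT, hTc⟩ := exists_subset_card_eq hF.2.2
    have hTF : T ⊆ F := hT.trans inter_subset_left
    rw [mem_biUnion]
    refine ⟨T, mem_filter.2 ⟨mem_powersetCard.2 ⟨hT.trans inter_subset_right, hTc⟩,
      hTF.trans hF.1⟩, mem_image.2 ⟨F \ T, mem_powersetCard.2
      ⟨sdiff_subset_sdiff hF.1 Subset.rfl, ?_⟩, union_sdiff_of_subset hTF⟩⟩
    rw [card_sdiff_of_subset hTF]
    omega
  refine (card_le_card hsub).trans ((card_biUnion_le_card_mul _ _ ((s - (t + j)) ^ D) ?_).trans ?_)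
  · intro T hT
    rw [mem_filter, mem_powersetCard] at hT
    refine card_image_le.trans ?_
    rw [card_powersetCard, card_sdiff_of_subset hT.2, card_range, hT.1.2]
    exact Nat.choose_le_pow _ _
  · apply Nat.mul_le_mul_right
    refine (card_le_card (filter_subset _ _)).trans ?_
    rw [card_powersetCard, card_range]
    rfl

lemma bb_pow (t j D : ℕ) : t ^ D * bb t j ≤ (j + D) ^ D * bb t (j + D) := by
  induction D with
  | zero => simp
  | succ D ih =>
    have h1 := bb_succ t (j + D)
    have h2 : (j + D) ^ D ≤ (j + (D + 1)) ^ D := Nat.pow_le_pow_left (by omega) _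
    calc t ^ (D + 1) * bb t j = t * (t ^ D * bb t j) := by ring
      _ ≤ t * ((j + D) ^ D * bb t (j + D)) := Nat.mul_le_mul_left _ ih
      _ = (j + D) ^ D * (t * bb t (j + D)) := by ring
      _ ≤ (j + (D + 1)) ^ D * ((j + D + 1) * bb t (j + D + 1)) := Nat.mul_le_mul h2 h1
      _ = _ := by rw [← add_assoc]; ring

end Pool.Agent.P.MP_ed1e41_co
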